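import Mathlib

/-!
# The gap between the two largest eigenvalues of a real symmetric matrix
-/

namespace V11121.Gap

open Matrix

variable {ι : Type*} [Fintype ι] [DecidableEq ι]

lemma mem_spectrum {A : Matrix ι ι ℝ} {μ : ℝ} {v : ι → ℝ} (hv : v ≠ 0) (h : A *ᵥ v = μ • v) :
    μ ∈ spectrum ℝ A := by
  rw [← Matrix.spectrum_toLin']
  apply Module.End.HasEigenvalue.mem_spectrum
  apply Module.End.hasEigenvalue_of_hasEigenvector (x := v)
  refine ⟨?_, hv⟩
  rw [Module.End.mem_eigenspace_iff, Matrix.toLin'_apply]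
  exact h

lemma exists_index {A : Matrix ι ι ℝ} (hA : A.IsHermitian) {μ : ℝ} {v : ι → ℝ} (hv : v ≠ 0)
    (h : A *ᵥ v = μ • v) : ∃ k, hA.eigenvalues₀ k = μ := by
  have h1 := mem_spectrum hv h
  rw [hA.spectrum_real_eq_range_eigenvalues] at h1
  obtain ⟨i, hi⟩ := h1
  exact ⟨_, hi⟩

/-- The largest eigenvalue is at least every eigenvalue. -/
lemma le_first {A : Matrix ι ι ℝ} (hA : A.IsHermitian) {μ : ℝ} {v : ι → ℝ} (hv : v ≠ 0)
    (h : A *ᵥ v = μ • v) (h0 : 0 < Fintype.card ι) : μ ≤ hA.eigenvalues₀ ⟨0, h0⟩ := by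
  obtain ⟨k, rfl⟩ := exists_index hA hv h
  exact hA.eigenvalues₀_antitone (Fin.mk_le_of_le_val (Nat.zero_le _))

/-- The second eigenvalue is at least the minimum of two distinct eigenvalues. -/
lemma le_second {A : Matrix ι ι ℝ} (hA : A.IsHermitian) {μ ν : ℝ} {v w : ι → ℝ} (hv : v ≠ 0)
    (h : A *ᵥ v = μ • v) (hw : w ≠ 0) (h' : A *ᵥ w = ν • w) (hlt : ν < μ)
    (h1 : 1 < Fintype.card ι) : ν ≤ hA.eigenvalues₀ ⟨1, h1⟩ := by
  obtain ⟨k, rfl⟩ := exists_index hA hv h
  obtain ⟨l, rfl⟩ := exists_index hA hw h'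
  have hkl : k < l := by
    by_contra hcon
    exact absurd (hA.eigenvalues₀_antitone (not_lt.1 hcon)) (not_le.2 hlt)
  apply hA.eigenvalues₀_antitone
  rw [Fin.le_def]
  simp only
  have := Fin.lt_def.1 hkl
  omega

/-- A row sum bound for the largest eigenvalue. -/
lemma first_le {A : Matrix ι ι ℝ} (hA : A.IsHermitian) {d : ℝ}
    (hd : ∀ i, ∑ j, |A i j| ≤ d) (k : Fin (Fintype.card ι)) : hA.eigenvalues₀ k ≤ d := by
  set e := Fintype.equivOfCardEq (Fintype.card_fin (Fintype.card ι)) with he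
  have h1 : hA.eigenvalues₀ k = hA.eigenvalues (e k) := by
    unfold Matrix.IsHermitian.eigenvalues
    rw [← he, Equiv.symm_apply_apply]
  have h2 : Module.End.HasEigenvalue (Matrix.toLin' A) (hA.eigenvalues (e k)) := by
    apply Module.End.hasEigenvalue_of_hasEigenvector (x := ⇑(hA.eigenvectorBasis (e k)))
    refine ⟨?_, ?_⟩
    · rw [Module.End.mem_eigenspace_iff, Matrix.toLin'_apply]
      exact hA.mulVec_eigenvectorBasis _
    · intro h0
      have h3 := hA.eigenvectorBasis.orthonormal.1 (e k)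
      have h4 : hA.eigenvectorBasis (e k) = 0 := by
        ext i
        exact congrFun h0 i
      rw [h4, norm_zero] at h3
      exact zero_ne_one h3
  obtain ⟨i, hi⟩ := eigenvalue_mem_ball h2
  rw [h1]
  rw [Metric.mem_closedBall, Real.dist_eq] at hi
  have h5 : ∑ j ∈ Finset.univ.erase i, ‖A i j‖ = ∑ j, |A i j| - |A i i| := by
    rw [← Finset.sum_erase_add _ _ (Finset.mem_univ i)]
    simp [Real.norm_eq_abs]
  rw [h5] at hi
  have h6 := le_abs_self (hA.eigenvalues (e k) - A i i)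
  have h7 := le_abs_self (A i i)
  have h8 := hd i
  linarith

/-- If the quadratic form is at most `c |x|^2` on the vectors orthogonal to `u`, then the second
eigenvalue is at most `c`. -/
lemma second_le {A : Matrix ι ι ℝ} (hA : A.IsHermitian) {c : ℝ} (u : ι → ℝ)
    (hq : ∀ x : ι → ℝ, u ⬝ᵥ x = 0 → x ⬝ᵥ (A *ᵥ x) ≤ c * (x ⬝ᵥ x)) (h1 : 1 < Fintype.card ι) :
    hA.eigenvalues₀ ⟨1, h1⟩ ≤ c := by
  by_contra hcon
  push Not at hcon
  set e := Fintype.equivOfCardEq (Fintype.card_fin (Fintype.card ι)) with he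
  have hev : ∀ k, hA.eigenvalues₀ k = hA.eigenvalues (e k) := by
    intro k
    unfold Matrix.IsHermitian.eigenvalues
    rw [← he, Equiv.symm_apply_apply]
  set k0 : Fin (Fintype.card ι) := ⟨0, by omega⟩
  set k1 : Fin (Fintype.card ι) := ⟨1, h1⟩
  have hne : e k0 ≠ e k1 := by
    intro hh
    have := e.injective hh
    simp [k0, k1] at this
  have l0 : c < hA.eigenvalues (e k0) := by
    rw [← hev]
    exact lt_of_lt_of_le hcon (hA.eigenvalues₀_antitone (by rw [Fin.le_def]; simp [k0]))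
  have l1 : c < hA.eigenvalues (e k1) := by
    rw [← hev]; exact hcon
  set a : ι → ℝ := ⇑(hA.eigenvectorBasis (e k0)) with ha
  set b : ι → ℝ := ⇑(hA.eigenvectorBasis (e k1)) with hb
  have hAa : A *ᵥ a = hA.eigenvalues (e k0) • a := hA.mulVec_eigenvectorBasis _
  have hAb : A *ᵥ b = hA.eigenvalues (e k1) • b := hA.mulVec_eigenvectorBasis _
  have horth := hA.eigenvectorBasis.orthonormal
  have haa : a ⬝ᵥ a = 1 := by
    have := orthonormal_iff_ite.1 horth (e k0) (e k0)
    rw [if_pos rfl, EuclideanSpace.inner_eq_star_dotProduct] at this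
    simpa using this
  have hbb : b ⬝ᵥ b = 1 := by
    have := orthonormal_iff_ite.1 horth (e k1) (e k1)
    rw [if_pos rfl, EuclideanSpace.inner_eq_star_dotProduct] at this
    simpa using this
  have hab : a ⬝ᵥ b = 0 := by
    have := orthonormal_iff_ite.1 horth (e k1) (e k0)
    rw [if_neg (Ne.symm hne), EuclideanSpace.inner_eq_star_dotProduct] at this
    simpa using this
  have hba : b ⬝ᵥ a = 0 := by rw [dotProduct_comm]; exact hab
  -- a nonzero combination orthogonal to `u`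
  have key : ∀ s t : ℝ, u ⬝ᵥ (s • a + t • b) = 0 → s = 0 ∧ t = 0 := by
    intro s t hst
    have h2 := hq _ hst
    have h3 : (s • a + t • b) ⬝ᵥ (A *ᵥ (s • a + t • b)) =
        hA.eigenvalues (e k0) * s ^ 2 + hA.eigenvalues (e k1) * t ^ 2 := by
      rw [Matrix.mulVec_add, Matrix.mulVec_smul, Matrix.mulVec_smul, hAa, hAb]
      simp only [add_dotProduct, dotProduct_add, smul_dotProduct, dotProduct_smul, haa, hbb, hab,
        hba, smul_eq_mul]
      ring
    have h4 : (s • a + t • b) ⬝ᵥ (s • a + t • b) = s ^ 2 + t ^ 2 := by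
      simp only [add_dotProduct, dotProduct_add, smul_dotProduct, dotProduct_smul, haa, hbb, hab,
        hba, smul_eq_mul]
      ring
    rw [h3, h4] at h2
    have hs : s ^ 2 = 0 := by
      nlinarith [sq_nonneg s, sq_nonneg t, mul_nonneg (sub_pos.2 l0).le (sq_nonneg s),
        mul_nonneg (sub_pos.2 l1).le (sq_nonneg t)]
    have ht : t ^ 2 = 0 := by
      nlinarith [sq_nonneg s, sq_nonneg t, mul_nonneg (sub_pos.2 l0).le (sq_nonneg s),
        mul_nonneg (sub_pos.2 l1).le (sq_nonneg t)]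
    exact ⟨pow_eq_zero_iff (two_ne_zero) |>.1 hs, pow_eq_zero_iff (two_ne_zero) |>.1 ht⟩
  by_cases hu : u ⬝ᵥ a = 0
  · have := key 1 0 (by simp [hu])
    exact one_ne_zero this.1
  · have h5 := key (u ⬝ᵥ b) (-(u ⬝ᵥ a)) (by
      rw [dotProduct_add, dotProduct_smul, dotProduct_smul, smul_eq_mul, smul_eq_mul]; ring)
    exact hu (neg_eq_zero.1 h5.2)

end V11121.Gap
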