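import Pool.Agent.Helper805.CHS.Density

/-!
A graph without a model of `K_t` has fewer than `2 ^ (t + 1) * n` ordered adjacent pairs.
-/

set_option autoImplicit false

namespace Pool.Agent.V11121

open SimpleGraph Pool.Agent.Helper805.CHS

theorem sum_degree_le {V : Type} [Fintype V] (G : SimpleGraph V) [DecidableRel G.Adj] (t : ℕ)
    (h : ¬ ∃ f : Fin t → Set V,
            (∀ i, (G.induce (f i)).Connected) ∧
            (∀ i j, i ≠ j → Disjoint (f i) (f j)) ∧
            (∀ i j, i ≠ j → ∃ u ∈ f i, ∃ v ∈ f j, G.Adj u v)) :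
    ∑ v, G.degree v ≤ 2 ^ (t + 1) * Fintype.card V := by
  classical
  let P : Finset (Set V) := Finset.univ.image (fun v : V => ({v} : Set V))
  have hinj : Function.Injective (fun v : V => ({v} : Set V)) := Set.singleton_injective
  have hP : Fam G P := by
    constructor
    · intro A hA
      obtain ⟨v, _, rfl⟩ := Finset.mem_image.1 hA
      have : Nonempty (({v} : Set V) : Type) := ⟨⟨v, rfl⟩⟩
      have hs : Subsingleton (({v} : Set V) : Type) := by
        constructor
        rintro ⟨a, ha⟩ ⟨b, hb⟩
        exact Subtype.ext (ha.trans hb.symm)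
      exact ⟨fun a b => by rw [Subsingleton.elim a b]⟩
    · intro A hA B hB hAB
      obtain ⟨v, _, rfl⟩ := Finset.mem_image.1 hA
      obtain ⟨w, _, rfl⟩ := Finset.mem_image.1 hB
      rw [Set.disjoint_singleton]
      rintro rfl
      exact hAB rfl
  have hPc : P.card = Fintype.card V := by
    rw [Finset.card_image_of_injective _ hinj, Finset.card_univ]
  have h1 : ∑ v, G.degree v ≤ (prs G P).card := by
    rw [← G.dart_card_eq_sum_degrees, ← Finset.card_univ]
    apply Finset.card_le_card_of_injOn (fun d : G.Dart => (({d.fst} : Set V), ({d.snd} : Set V)))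
    · intro d _
      refine Finset.mem_coe.2 (mem_prs.2 ⟨Finset.mem_image_of_mem _ (Finset.mem_univ _),
        Finset.mem_image_of_mem _ (Finset.mem_univ _), ?_, ⟨d.fst, rfl, d.snd, rfl, d.adj⟩⟩)
      intro he
      exact d.adj.ne (hinj he)
    · intro d _ d' _ hdd
      obtain ⟨e1, e2⟩ := Prod.mk.inj hdd
      exact SimpleGraph.Dart.ext _ _ (Prod.ext (hinj e1) (hinj e2))
  by_contra hcon
  push Not at hcon
  have h2 : 2 * (2 ^ t - 1) * P.card < (prs G P).card := by
    rw [hPc]
    refine lt_of_le_of_lt ?_ (lt_of_lt_of_le hcon h1)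
    apply Nat.mul_le_mul_right
    rw [pow_succ]
    omega
  obtain ⟨f, f1, f2, f3, -, -⟩ := mader G t P hP h2
  apply h
  refine ⟨fun i => f (Fin.castLE (by omega) i), fun i => f1 _, fun i j hij => f2 _ _ ?_,
    fun i j hij => ?_⟩
  · intro he
    exact hij (Fin.castLE_injective _ he)
  · exact f3 _ _ (fun he => hij (Fin.castLE_injective _ he))

end Pool.Agent.V11121
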