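import Pool.Agent.V11121.Conn

/-!
Path systems in path-pairable graphs, and the choice of a good map.
-/

set_option autoImplicit false

namespace Pool.Agent.V11121

open SimpleGraph Finset

/-- the path system belonging to the pairs `{u, c - u}`. -/
theorem exists_system {V : Type} [Fintype V] [AddCommGroup V] [LinearOrder V] (G : SimpleGraph V)
    [DecidableRel G.Adj]
    (hpp : ∀ (k : ℕ) (s r : Fin k → V), Function.Injective (Sum.elim s r) →
          ∃ p : (i : Fin k) → G.Walk (s i) (r i),
            (∀ i, (p i).IsPath) ∧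
            ∀ i j, i ≠ j → ∀ e ∈ (p i).edges, e ∉ (p j).edges) (c : V) :
    ∃ S : V → Finset V, (∀ u, u ∈ S u) ∧ (∀ u, S (c - u) = S u) ∧
      (∀ u, (G.induce (S u : Set V)).Connected) ∧
      ∀ v, (univ.filter (fun u => v ∈ S u)).card ≤ 2 * G.degree v + 1 := by
  classical
  obtain ⟨T, hT⟩ : ∃ T : Finset V, T = univ.filter (fun u => u < c - u) := ⟨_, rfl⟩
  have hmem : ∀ u, u ∈ T ↔ u < c - u := fun u => by simp [hT]
  have e : Fin T.card ≃ T := T.equivFin.symm
  have hinj : Function.Injective
      (Sum.elim (fun i => (e i).1) (fun i => c - (e i).1) : Fin T.card ⊕ Fin T.card → V) := by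
    have key : ∀ i j, (e i).1 ≠ c - (e j).1 := by
      intro i j h
      have h1 := (hmem _).1 (e i).2
      have h2 := (hmem _).1 (e j).2
      have h3 : c - (e i).1 = (e j).1 := by rw [h]; abel
      rw [h3, h] at h1
      exact absurd h1 h2.not_gt
    rintro (i | i) (j | j) h
    · simp only [Sum.elim_inl] at h
      rw [e.injective (Subtype.ext h)]
    · simp only [Sum.elim_inl, Sum.elim_inr] at h
      exact absurd h (key i j)
    · simp only [Sum.elim_inl, Sum.elim_inr] at h
      exact absurd h.symm (key j i)
    · simp only [Sum.elim_inr] at h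
      rw [e.injective (Subtype.ext (sub_right_injective h))]
  obtain ⟨p, _, hp⟩ := hpp T.card (fun i => (e i).1) (fun i => c - (e i).1) hinj
  -- supports of the paths
  let P : V → Finset V := fun u =>
    if h : u ∈ T then (p (e.symm ⟨u, h⟩)).support.toFinset else ∅
  have hPval : ∀ (u : V) (h : u ∈ T), P u = (p (e.symm ⟨u, h⟩)).support.toFinset := by
    intro u h
    simp [P, h]
  have hstart : ∀ (u : V) (h : u ∈ T), u ∈ P u := by
    intro u h
    rw [hPval u h, List.mem_toFinset]
    have h1 := (p (e.symm ⟨u, h⟩)).start_mem_support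
    simp only [Equiv.apply_symm_apply] at h1
    exact h1
  have hend : ∀ (u : V) (h : u ∈ T), c - u ∈ P u := by
    intro u h
    rw [hPval u h, List.mem_toFinset]
    have h1 := (p (e.symm ⟨u, h⟩)).end_mem_support
    simp only [Equiv.apply_symm_apply] at h1
    exact h1
  have hconn : ∀ (u : V) (h : u ∈ T), (G.induce (P u : Set V)).Connected := by
    intro u h
    have h1 := (p (e.symm ⟨u, h⟩)).connected_induce_support
    have h2 : (P u : Set V) = {v | v ∈ (p (e.symm ⟨u, h⟩)).support} := by
      rw [hPval u h]
      ext x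
      simp
    rw [h2]
    exact h1
  have hcnt : ∀ v, (T.filter (fun u => v ∈ P u)).card ≤ G.degree v := by
    intro v
    rw [← G.card_incidenceFinset_eq_degree]
    have hex : ∀ u ∈ T.filter (fun u => v ∈ P u), ∃ ed, ed ∈ G.incidenceFinset v ∧
        ∃ h : u ∈ T, ed ∈ (p (e.symm ⟨u, h⟩)).edges := by
      intro u hu
      rw [mem_filter] at hu
      obtain ⟨hu, hv⟩ := hu
      rw [hPval u hu, List.mem_toFinset] at hv
      have hne : ¬ (p (e.symm ⟨u, hu⟩)).Nil := by
        intro hnil
        have h1 := hnil.eq
        simp only [Equiv.apply_symm_apply] at h1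
        have h2 := (hmem u).1 hu
        rw [← h1] at h2
        exact lt_irrefl _ h2
      obtain ⟨ed, h1, h2⟩ := (SimpleGraph.Walk.mem_support_iff_exists_mem_edges_of_not_nil hne).1 hv
      refine ⟨ed, ?_, hu, h1⟩
      rw [mem_incidenceFinset]
      exact ⟨(p (e.symm ⟨u, hu⟩)).edges_subset_edgeSet h1, h2⟩
    have : Nonempty (Sym2 V) := ⟨s(c, c)⟩
    choose! f hf1 hf2 using hex
    apply Finset.card_le_card_of_injOn f
    · intro u hu
      exact Finset.mem_coe.2 (hf1 u (Finset.mem_coe.1 hu))
    · intro u hu w hw huw
      obtain ⟨hu1, hu2⟩ := hf2 u (Finset.mem_coe.1 hu)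
      obtain ⟨hw1, hw2⟩ := hf2 w (Finset.mem_coe.1 hw)
      by_contra hne
      have h3 : e.symm ⟨u, hu1⟩ ≠ e.symm ⟨w, hw1⟩ := by
        intro h
        exact hne (congrArg Subtype.val (e.symm.injective h))
      rw [huw] at hu2
      exact hp _ _ h3 _ hu2 hw2
  -- the sets
  let S : V → Finset V := fun u => if u ∈ T then P u else if c - u ∈ T then P (c - u) else {u}
  have hSself : ∀ u, u ∉ T → c - u ∉ T → c - u = u := by
    intro u h1 h2
    rw [hmem] at h1 h2
    have h3 : c - (c - u) = u := by abel
    rw [h3] at h2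
    exact le_antisymm (not_lt.1 h1) (not_lt.1 h2)
  have hnot : ∀ u, u ∈ T → c - u ∉ T := by
    intro u h1 h2
    rw [hmem] at h1 h2
    have h3 : c - (c - u) = u := by abel
    rw [h3] at h2
    exact absurd h1 h2.not_gt
  have hcc : ∀ u, c - (c - u) = u := fun u => by abel
  refine ⟨S, ?_, ?_, ?_, ?_⟩
  · intro u
    by_cases h1 : u ∈ T
    · simp only [S, h1, if_true]
      exact hstart u h1
    · by_cases h2 : c - u ∈ T
      · simp only [S, h1, h2, if_true, if_false]
        have := hend (c - u) h2
        rwa [hcc] at this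
      · simp [S, h1, h2]
  · intro u
    by_cases h1 : u ∈ T
    · have h2 := hnot u h1
      simp only [S, h1, h2, if_true, if_false, hcc]
    · by_cases h2 : c - u ∈ T
      · simp only [S, h1, h2, if_true, if_false]
      · have h3 := hSself u h1 h2
        rw [h3]
  · intro u
    by_cases h1 : u ∈ T
    · have hS : S u = P u := by simp only [S, h1, if_true]
      rw [hS]
      exact hconn u h1
    · by_cases h2 : c - u ∈ T
      · have hS : S u = P (c - u) := by simp only [S, h1, h2, if_true, if_false]
        rw [hS]
        exact hconn _ h2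
      · have hS : S u = {u} := by simp only [S, h1, h2, if_false]
        rw [hS]
        have hs : Subsingleton ((({u} : Finset V) : Set V) : Type) := by
          constructor
          rintro ⟨a, ha⟩ ⟨b, hb⟩
          rw [Finset.coe_singleton] at ha hb
          exact Subtype.ext (ha.trans hb.symm)
        have : Nonempty ((({u} : Finset V) : Set V) : Type) := ⟨⟨u, by simp⟩⟩
        exact ⟨fun a b => by rw [Subsingleton.elim a b]⟩
  · intro v
    have hsub : univ.filter (fun u => v ∈ S u) ⊆ (T.filter (fun u => v ∈ P u)) ∪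
        ((T.filter (fun u => v ∈ P u)).image (fun u => c - u) ∪ {v}) := by
      intro u hu
      rw [mem_filter] at hu
      obtain ⟨_, hu⟩ := hu
      by_cases h1 : u ∈ T
      · simp only [S, h1, if_true] at hu
        exact mem_union_left _ (mem_filter.2 ⟨h1, hu⟩)
      · apply mem_union_right
        by_cases h2 : c - u ∈ T
        · simp only [S, h1, h2, if_true, if_false] at hu
          apply mem_union_left
          rw [mem_image]
          exact ⟨c - u, mem_filter.2 ⟨h2, hu⟩, hcc u⟩
        · simp only [S, h1, h2, if_false, mem_singleton] at hu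
          apply mem_union_right
          rw [mem_singleton, hu]
    have h1 := card_le_card hsub
    have h2 := card_union_le (T.filter (fun u => v ∈ P u))
      ((T.filter (fun u => v ∈ P u)).image (fun u => c - u) ∪ {v})
    have h3 := card_union_le ((T.filter (fun u => v ∈ P u)).image (fun u => c - u)) {v}
    have h4 := card_image_le (s := T.filter (fun u => v ∈ P u)) (f := fun u => c - u)
    have h5 := hcnt v
    rw [card_singleton] at h3
    omega

/-- choosing all the path systems at once. -/
theorem exists_pairs {V : Type} [Fintype V] [AddCommGroup V] [LinearOrder V] (G : SimpleGraph V)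
    [DecidableRel G.Adj]
    (hpp : ∀ (k : ℕ) (s r : Fin k → V), Function.Injective (Sum.elim s r) →
          ∃ p : (i : Fin k) → G.Walk (s i) (r i),
            (∀ i, (p i).IsPath) ∧
            ∀ i j, i ≠ j → ∀ e ∈ (p i).edges, e ∉ (p j).edges) :
    ∃ S : V → V → Finset V, (∀ u w, u ∈ S u w) ∧ (∀ u w, S u w = S w u) ∧
      (∀ u w, (G.induce (S u w : Set V)).Connected) ∧
      ∀ v, (univ.filter (fun x : V × V => v ∈ S x.1 x.2)).card ≤
        Fintype.card V * (2 * G.degree v + 1) := by
  classical
  choose S h1 h2 h3 h4 using fun c => exists_system G hpp c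
  refine ⟨fun u w => S (u + w) u, fun u w => h1 _ _, ?_, fun u w => h3 _ _, ?_⟩
  · intro u w
    have h5 : (u + w) - u = w := by abel
    have h6 := h2 (u + w) u
    rw [h5] at h6
    change S (u + w) u = S (w + u) w
    rw [← h6, add_comm u w]
  · intro v
    have h5 : (univ.filter (fun x : V × V => v ∈ S (x.1 + x.2) x.1)).card ≤
        (univ.sigma (fun c : V => univ.filter (fun u => v ∈ S c u))).card := by
      apply card_le_card_of_injOn (fun x : V × V => ⟨x.1 + x.2, x.1⟩)
      · intro x hx
        rw [mem_coe, mem_filter] at hx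
        rw [mem_coe, mem_sigma]
        exact ⟨mem_univ _, mem_filter.2 ⟨mem_univ _, hx.2⟩⟩
      · intro x _ y _ hxy
        simp only [Sigma.mk.injEq, heq_eq_eq] at hxy
        obtain ⟨e1, e2⟩ := hxy
        rw [e2] at e1
        exact Prod.ext e2 (add_left_cancel e1)
    refine h5.trans ?_
    rw [card_sigma]
    calc ∑ c : V, (univ.filter (fun u => v ∈ S c u)).card
        ≤ ∑ _c : V, (2 * G.degree v + 1) := sum_le_sum fun c _ => h4 c v
      _ = _ := by rw [sum_const, card_univ, smul_eq_mul]

/-- counting the maps that are bad at a given injective tuple. -/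
theorem count_bad {A V : Type} [Fintype A] [DecidableEq A] [Fintype V] [DecidableEq V] {m : ℕ}
    (e : Fin m → A) (he : Function.Injective e) (R : Finset (Fin m → V)) :
    (univ.filter (fun φ : A → V => φ ∘ e ∈ R)).card * Fintype.card V ^ m ≤
      R.card * Fintype.card (A → V) := by
  classical
  have h1 : Fintype.card V ^ m = (univ : Finset (Fin m → V)).card := by
    rw [card_univ, Fintype.card_fun, Fintype.card_fin]
  rw [h1, ← card_univ, ← card_product, ← card_product]
  apply card_le_card_of_injOn (fun x => (x.1 ∘ e, Function.extend e x.2 x.1))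
  · rintro ⟨φ, w⟩ hx
    rw [mem_coe, mem_product, mem_filter] at hx
    rw [mem_coe, mem_product]
    exact ⟨hx.1.2, mem_univ _⟩
  · rintro ⟨φ, w⟩ _ ⟨φ', w'⟩ _ hxy
    obtain ⟨e1, e2⟩ := Prod.mk.inj hxy
    simp only at e1 e2
    have hw : w = w' := by
      funext i
      have := congrFun e2 (e i)
      rwa [he.extend_apply, he.extend_apply] at this
    have hφ : φ = φ' := by
      funext a
      by_cases ha : ∃ i, e i = a
      · obtain ⟨i, rfl⟩ := ha
        exact congrFun e1 i
      · have := congrFun e2 a
        rwa [Function.extend_apply' _ _ _ ha, Function.extend_apply' _ _ _ ha] at this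
    rw [hw, hφ]

/-- a good map exists if the sets `S x y` are spread out. -/
theorem exists_good {A V : Type} [Fintype A] [DecidableEq A] [Fintype V] [DecidableEq V]
    (S : V → V → Finset V)
    (h : Fintype.card A ^ 4 * ∑ v : V, (univ.filter (fun x : V × V => v ∈ S x.1 x.2)).card ^ 2 <
      Fintype.card V ^ 4) :
    ∃ φ : A → V, ∀ a b c d : A, a ≠ b → a ≠ c → a ≠ d → b ≠ c → b ≠ d → c ≠ d →
      Disjoint (S (φ a) (φ b)) (S (φ c) (φ d)) := by
  classical
  obtain ⟨R, hR⟩ : ∃ R : Finset (Fin 4 → V), R = univ.filter (fun ψ : Fin 4 → V =>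
    ∃ v, v ∈ S (ψ 0) (ψ 1) ∧ v ∈ S (ψ 2) (ψ 3)) := ⟨_, rfl⟩
  have hRc : R.card ≤ ∑ v : V, (univ.filter (fun x : V × V => v ∈ S x.1 x.2)).card ^ 2 := by
    have h1 : R.card ≤ (univ.sigma (fun v : V => (univ.filter (fun x : V × V => v ∈ S x.1 x.2)) ×ˢ
        (univ.filter (fun x : V × V => v ∈ S x.1 x.2)))).card := by
      have hex : ∀ ψ ∈ R, ∃ v, v ∈ S (ψ 0) (ψ 1) ∧ v ∈ S (ψ 2) (ψ 3) := by
        intro ψ hψ
        rw [hR, mem_filter] at hψ
        exact hψ.2
      rcases isEmpty_or_nonempty V with hV | hV
      · have : R = ∅ := by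
          rw [Finset.eq_empty_iff_forall_notMem]
          intro ψ _
          exact hV.elim (ψ 0)
        rw [this]
        simp
      choose! f hf using hex
      apply card_le_card_of_injOn (fun ψ => ⟨f ψ, ((ψ 0, ψ 1), (ψ 2, ψ 3))⟩)
      · intro ψ hψ
        have := hf ψ (mem_coe.1 hψ)
        rw [mem_coe, mem_sigma, mem_product]
        exact ⟨mem_univ _, mem_filter.2 ⟨mem_univ _, this.1⟩, mem_filter.2 ⟨mem_univ _, this.2⟩⟩
      · intro ψ _ ψ' _ hh
        simp only [Sigma.mk.injEq, heq_eq_eq, Prod.mk.injEq] at hh
        obtain ⟨_, ⟨a1, a2⟩, a3, a4⟩ := hh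
        funext i
        fin_cases i
        · exact a1
        · exact a2
        · exact a3
        · exact a4
    refine h1.trans ?_
    rw [card_sigma]
    apply sum_le_sum
    intro v _
    rw [card_product, sq]
  by_contra hcon
  push Not at hcon
  -- every map is bad at some injective tuple
  have hcov : (univ : Finset (A → V)) ⊆
      (univ.filter (fun e : Fin 4 → A => Function.Injective e)).biUnion
        (fun e => univ.filter (fun φ : A → V => φ ∘ e ∈ R)) := by
    intro φ _
    obtain ⟨a, b, c, d, hab, hac, had, hbc, hbd, hcd, hnd⟩ := hcon φ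
    rw [mem_biUnion]
    refine ⟨![a, b, c, d], ?_, ?_⟩
    · rw [mem_filter]
      refine ⟨mem_univ _, ?_⟩
      intro i j hij
      fin_cases i <;> fin_cases j <;> simp at hij <;> first | rfl | exact absurd hij (by assumption) | exact absurd hij.symm (by assumption)
    · rw [mem_filter, hR, mem_filter]
      refine ⟨mem_univ _, mem_univ _, ?_⟩
      rw [Finset.disjoint_left] at hnd
      push Not at hnd
      exact hnd
  have hcard := card_le_card hcov
  have h2 := hcard.trans card_biUnion_le
  rw [card_univ] at h2
  have hVpos : 0 < Fintype.card V ^ 4 := by omega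
  have hVne : 0 < Fintype.card V := Nat.pos_of_ne_zero (by rintro h0; rw [h0] at hVpos; simp at hVpos)
  have hApos : 0 < Fintype.card (A → V) := by
    rw [Fintype.card_fun]
    exact pow_pos hVne _
  have h3 : Fintype.card (A → V) * Fintype.card V ^ 4 ≤
      Fintype.card A ^ 4 * (R.card * Fintype.card (A → V)) := by
    calc Fintype.card (A → V) * Fintype.card V ^ 4
        ≤ (∑ e ∈ univ.filter (fun e : Fin 4 → A => Function.Injective e),
            (univ.filter (fun φ : A → V => φ ∘ e ∈ R)).card) * Fintype.card V ^ 4 :=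
          Nat.mul_le_mul_right _ h2
      _ = ∑ e ∈ univ.filter (fun e : Fin 4 → A => Function.Injective e),
            (univ.filter (fun φ : A → V => φ ∘ e ∈ R)).card * Fintype.card V ^ 4 := by
          rw [sum_mul]
      _ ≤ ∑ e ∈ univ.filter (fun e : Fin 4 → A => Function.Injective e),
            R.card * Fintype.card (A → V) := by
          apply sum_le_sum
          intro e he
          exact count_bad e (mem_filter.1 he).2 R
      _ = (univ.filter (fun e : Fin 4 → A => Function.Injective e)).card *
            (R.card * Fintype.card (A → V)) := by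
          rw [sum_const, smul_eq_mul]
      _ ≤ Fintype.card A ^ 4 * (R.card * Fintype.card (A → V)) := by
          apply Nat.mul_le_mul_right
          refine (card_le_univ _).trans ?_
          rw [Fintype.card_fun, Fintype.card_fin]
  have h4 : Fintype.card (A → V) * Fintype.card V ^ 4 ≤
      Fintype.card (A → V) * (Fintype.card A ^ 4 *
        ∑ v : V, (univ.filter (fun x : V × V => v ∈ S x.1 x.2)).card ^ 2) := by
    refine h3.trans ?_
    calc Fintype.card A ^ 4 * (R.card * Fintype.card (A → V))
        = Fintype.card (A → V) * (Fintype.card A ^ 4 * R.card) := by ring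
      _ ≤ _ := Nat.mul_le_mul_left _ (Nat.mul_le_mul_left _ hRc)
  have h5 := Nat.le_of_mul_le_mul_left h4 hApos
  omega

end Pool.Agent.V11121
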