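import Mathlib

/-!
A hereditary class of unbounded clique-width without prime 2-connected members.
-/

set_option autoImplicit false

namespace Pool.Agent.V11121.B23

open SimpleGraph

/-- vertices `v i`, `x j` and `w j i`. -/
abbrev W (d N : ℕ) : Type := Fin N ⊕ (Fin d ⊕ (Fin d × Fin N))

/-- adjacency, in one direction. -/
def adj1 (d N : ℕ) : W d N → W d N → Prop
  | Sum.inl _, Sum.inr (Sum.inl _) => True
  | Sum.inl i, Sum.inr (Sum.inr p) => p.2 = i
  | Sum.inr (Sum.inl a), Sum.inr (Sum.inl b) => a < b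
  | Sum.inr (Sum.inr p), Sum.inr (Sum.inl l) => p.1 < l
  | _, _ => False

/-- the graph. -/
def Big (d N : ℕ) : SimpleGraph (W d N) where
  Adj a b := adj1 d N a b ∨ adj1 d N b a
  symm := ⟨fun _ _ h => h.symm⟩
  loopless := by
    constructor
    rintro (i | j | p) (h | h)
    all_goals first
      | exact h
      | exact lt_irrefl _ h

theorem adj_vv {d N : ℕ} (i j : Fin N) : ¬ (Big d N).Adj (Sum.inl i) (Sum.inl j) := by
  rintro (h | h) <;> exact h

theorem adj_vx {d N : ℕ} (i : Fin N) (j : Fin d) :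
    (Big d N).Adj (Sum.inl i) (Sum.inr (Sum.inl j)) := Or.inl trivial

theorem adj_xx {d N : ℕ} (a b : Fin d) :
    (Big d N).Adj (Sum.inr (Sum.inl a)) (Sum.inr (Sum.inl b)) ↔ a ≠ b := by
  constructor
  · rintro (h | h)
    · exact ne_of_lt h
    · exact ne_of_gt h
  · intro h
    rcases lt_or_gt_of_ne h with h | h
    · exact Or.inl h
    · exact Or.inr h

theorem adj_wv {d N : ℕ} (p : Fin d × Fin N) (i : Fin N) :
    (Big d N).Adj (Sum.inr (Sum.inr p)) (Sum.inl i) ↔ p.2 = i := by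
  constructor
  · rintro (h | h)
    · exact h.elim
    · exact h
  · exact Or.inr

theorem adj_wx {d N : ℕ} (p : Fin d × Fin N) (l : Fin d) :
    (Big d N).Adj (Sum.inr (Sum.inr p)) (Sum.inr (Sum.inl l)) ↔ p.1 < l := by
  constructor
  · rintro (h | h)
    · exact h
    · exact h.elim
  · exact Or.inl

theorem adj_ww {d N : ℕ} (p q : Fin d × Fin N) :
    ¬ (Big d N).Adj (Sum.inr (Sum.inr p)) (Sum.inr (Sum.inr q)) := by
  rintro (h | h) <;> exact h

/-- rank of a vertex. -/
def rk (d N : ℕ) : W d N → ℕ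
  | Sum.inl _ => 0
  | Sum.inr (Sum.inl j) => 2 * j.1 + 1
  | Sum.inr (Sum.inr p) => 2 * p.1.1 + 2

/-- no induced subgraph is prime and 2-connected. -/
theorem no_prime {d N n : ℕ} {G : SimpleGraph (Fin n)} (φ : G ↪g Big d N) (hn : 3 ≤ n)
    (hconn : G.Connected) (h2 : ∀ v : Fin n, (G.induce {w | w ≠ v}).Connected)
    (hprime : ∀ M : Set (Fin n),
      (∀ x, x ∉ M → ∀ y ∈ M, ∀ z ∈ M, (G.Adj x y ↔ G.Adj x z)) →
      M.Subsingleton ∨ M = Set.univ) : False := by
  -- every vertex has two neighbours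
  have hne : ∀ v : Fin n, ∃ u, G.Adj v u := by
    intro v
    have : Nontrivial (Fin n) := Fin.nontrivial_iff_two_le.2 (by omega)
    have h1 := hconn.preconnected.exists_isPath
    obtain ⟨w, hw⟩ := exists_ne v
    obtain ⟨p⟩ := hconn.preconnected v w
    cases p with
    | nil => exact absurd rfl hw
    | cons h _ => exact ⟨_, h⟩
  have htwo : ∀ v u : Fin n, G.Adj v u → ∃ u', u' ≠ u ∧ G.Adj v u' := by
    intro v u hvu
    -- a third vertex
    have hex : ∃ t : Fin n, t ≠ v ∧ t ≠ u := by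
      by_contra hcon
      push Not at hcon
      have h3 : (Finset.univ : Finset (Fin n)) ⊆ {v, u} := by
        intro t _
        rw [Finset.mem_insert, Finset.mem_singleton]
        by_cases ht : t = v
        · exact Or.inl ht
        · exact Or.inr (hcon t ht)
      have h4 := Finset.card_le_card h3
      have h5 : ({v, u} : Finset (Fin n)).card ≤ 2 := Finset.card_le_two
      rw [Finset.card_univ, Fintype.card_fin] at h4
      omega
    obtain ⟨t, htv, htu⟩ := hex
    obtain ⟨p⟩ := (h2 u).preconnected ⟨v, hvu.ne⟩ ⟨t, htu⟩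
    cases p with
    | nil => exact absurd rfl htv
    | @cons _ b _ h _ => exact ⟨b.1, b.2, h⟩
  -- a vertex of maximal rank
  have : Nonempty (Fin n) := ⟨⟨0, by omega⟩⟩
  obtain ⟨u, hu⟩ := Finite.exists_max (fun v : Fin n => rk d N (φ v))
  obtain ⟨u1, hu1⟩ := hne u
  obtain ⟨u2, hu12, hu2⟩ := htwo u u1 hu1
  rw [← φ.map_adj_iff] at hu1 hu2
  have hinj : φ u2 ≠ φ u1 := φ.injective.ne hu12
  rcases hφ : φ u with i | j | p
  · -- all vertices have rank `0`
    have h1 := hu u1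
    rw [hφ] at h1 hu1
    rcases hφ1 : φ u1 with i1 | j1 | p1
    · rw [hφ1] at hu1
      exact adj_vv _ _ hu1
    · rw [hφ1] at h1
      simp [rk] at h1
    · rw [hφ1] at h1
      simp [rk] at h1
  · -- a universal vertex
    have huniv : ∀ t : Fin n, t ≠ u → G.Adj u t := by
      intro t ht
      rw [← φ.map_adj_iff, hφ]
      have h1 := hu t
      rw [hφ] at h1
      have h2 : φ t ≠ φ u := φ.injective.ne ht
      rw [hφ] at h2
      rcases hφ1 : φ t with i1 | j1 | p1
      · exact (adj_vx _ _).symm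
      · rw [adj_xx]
        rintro rfl
        exact h2 hφ1
      · refine ((adj_wx _ _).2 ?_).symm
        rw [hφ1] at h1
        simp only [rk] at h1
        rw [Fin.lt_def]
        omega
    rcases hprime {t | t ≠ u} (by
      intro x hx y hy z hz
      have hxu : x = u := by
        by_contra h
        exact hx h
      rw [hxu]
      exact iff_of_true (huniv y hy) (huniv z hz)) with h1 | h1
    · -- two further vertices
      have e1 : u1 ≠ u := (φ.map_adj_iff.1 hu1).ne'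
      have e2 : u2 ≠ u := (φ.map_adj_iff.1 hu2).ne'
      exact hu12 (h1 e2 e1)
    · have h2 : u ∈ ({t | t ≠ u} : Set (Fin n)) := by
        rw [h1]
        trivial
      exact h2 rfl
  · -- a pendant vertex
    have haux : ∀ t : Fin n, (Big d N).Adj (φ u) (φ t) → φ t = Sum.inl p.2 := by
      intro t ht
      have h1 := hu t
      rw [hφ] at h1 ht
      rcases hφ1 : φ t with i1 | j1 | p1
      · rw [hφ1, adj_wv] at ht
        rw [ht]
      · rw [hφ1, adj_wx, Fin.lt_def] at ht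
        rw [hφ1] at h1
        simp only [rk] at h1
        omega
      · rw [hφ1] at ht
        exact absurd ht (adj_ww _ _)
    exact hinj ((haux u2 hu2).trans (haux u1 hu1).symm)

/-- the combinatorial core of the lower bound. -/
theorem core {k N : ℕ} (X : Set (W (2 * k + 1) N)) (g : W (2 * k + 1) N → Fin k)
    (hg : ∀ u ∈ X, ∀ v ∈ X, g u = g v → ∀ w, w ∉ X →
      ((Big (2 * k + 1) N).Adj u w ↔ (Big (2 * k + 1) N).Adj v w))
    (hA : k < ({i : Fin N | (Sum.inl i : W (2 * k + 1) N) ∈ X} : Set (Fin N)).ncard)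
    (hB : k < ({i : Fin N | (Sum.inl i : W (2 * k + 1) N) ∉ X} : Set (Fin N)).ncard) : False := by
  classical
  -- injections into `Fin k`
  have hcard : ∀ {α : Type} [Finite α] (S : Set α) (f : α → Fin k), Set.InjOn f S →
      S.ncard ≤ k := by
    intro α _ S f hf
    have h1 := Set.ncard_le_ncard_of_injOn (t := (Set.univ : Set (Fin k))) f
      (fun _ _ => trivial) hf (Set.toFinite _)
    rw [Set.ncard_univ, Nat.card_eq_fintype_card, Fintype.card_fin] at h1
    exact h1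
  have hi0 : ∃ i : Fin N, (Sum.inl i : W (2 * k + 1) N) ∈ X ∧
      ∀ j : Fin (2 * k + 1), (Sum.inr (Sum.inr (j, i)) : W (2 * k + 1) N) ∈ X := by
    by_contra hcon
    push Not at hcon
    have := hcard {i : Fin N | (Sum.inl i : W (2 * k + 1) N) ∈ X}
      (fun i => g (Sum.inl i)) (by
        intro i hi i' hi' hii
        obtain ⟨j, hj⟩ := hcon i hi
        have h1 := hg _ hi _ hi' hii _ hj
        rw [SimpleGraph.adj_comm, adj_wv, SimpleGraph.adj_comm, adj_wv] at h1
        exact h1.1 rfl)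
    omega
  have hi1 : ∃ i : Fin N, (Sum.inl i : W (2 * k + 1) N) ∉ X ∧
      ∀ j : Fin (2 * k + 1), (Sum.inr (Sum.inr (j, i)) : W (2 * k + 1) N) ∉ X := by
    by_contra hcon
    push Not at hcon
    choose! j hj using hcon
    have := hcard {i : Fin N | (Sum.inl i : W (2 * k + 1) N) ∉ X}
      (fun i => g (Sum.inr (Sum.inr (j i, i)))) (by
        intro i hi i' hi' hii
        have h1 := hg _ (hj i hi) _ (hj i' hi') hii _ hi
        rw [adj_wv, adj_wv] at h1
        exact (h1.1 rfl).symm)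
    omega
  obtain ⟨i0, -, h0⟩ := hi0
  obtain ⟨i1, -, h1⟩ := hi1
  have hI := hcard {j : Fin (2 * k + 1) | (Sum.inr (Sum.inl j) : W (2 * k + 1) N) ∈ X}
    (fun j => g (Sum.inr (Sum.inl j))) (by
      have aux : ∀ a b : Fin (2 * k + 1), (Sum.inr (Sum.inl a) : W (2 * k + 1) N) ∈ X →
          (Sum.inr (Sum.inl b) : W (2 * k + 1) N) ∈ X →
          g (Sum.inr (Sum.inl a)) = g (Sum.inr (Sum.inl b)) → ¬ a < b := by
        intro a b ha hb hab hlt
        have h2 := hg _ ha _ hb hab _ (h1 a)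
        rw [SimpleGraph.adj_comm, adj_wx, SimpleGraph.adj_comm, adj_wx] at h2
        exact lt_irrefl _ (h2.2 hlt)
      intro a ha b hb hab
      rcases lt_trichotomy a b with h | h | h
      · exact absurd h (aux a b ha hb hab)
      · exact h
      · exact absurd h (aux b a hb ha hab.symm))
  have hJ := hcard {j : Fin (2 * k + 1) | (Sum.inr (Sum.inl j) : W (2 * k + 1) N) ∉ X}
    (fun j => g (Sum.inr (Sum.inr (j, i0)))) (by
      have aux : ∀ a b : Fin (2 * k + 1), (Sum.inr (Sum.inl b) : W (2 * k + 1) N) ∉ X →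
          g (Sum.inr (Sum.inr (a, i0))) = g (Sum.inr (Sum.inr (b, i0))) → ¬ a < b := by
        intro a b hb hab hlt
        have h2 := hg _ (h0 a) _ (h0 b) hab _ hb
        rw [adj_wx, adj_wx] at h2
        exact lt_irrefl _ (h2.1 hlt)
      intro a ha b hb hab
      rcases lt_trichotomy a b with h | h | h
      · exact absurd h (aux a b hb hab)
      · exact h
      · exact absurd h (aux b a ha hab.symm))
  have hsum : ({j : Fin (2 * k + 1) | (Sum.inr (Sum.inl j) : W (2 * k + 1) N) ∈ X} :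
      Set _).ncard + ({j : Fin (2 * k + 1) | (Sum.inr (Sum.inl j) : W (2 * k + 1) N) ∉ X} :
      Set _).ncard = 2 * k + 1 := by
    have h2 : {j : Fin (2 * k + 1) | (Sum.inr (Sum.inl j) : W (2 * k + 1) N) ∉ X} =
        {j : Fin (2 * k + 1) | (Sum.inr (Sum.inl j) : W (2 * k + 1) N) ∈ X}ᶜ := rfl
    rw [h2, Set.ncard_add_ncard_compl, Nat.card_eq_fintype_card, Fintype.card_fin]
  omega

/-- the invariant of the expressions. -/
def Inv (k : ℕ) (T : Finset ℕ) (S : Finset ℕ) (H : SimpleGraph ℕ) (ℓ : ℕ → Fin k) : Prop :=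
  (∀ u v, H.Adj u v → u ∈ S ∧ v ∈ S) ∧ ∀ m, 1 ≤ m → m ≤ (S ∩ T).card →
    ∃ A ⊆ S, m ≤ (A ∩ T).card ∧ (A ∩ T).card < 2 * m ∧ ∃ g : ℕ → Fin k,
      ∀ u ∈ A, ∀ v ∈ A, g u = g v → ℓ u = ℓ v ∧ ∀ w ∈ S, w ∉ A → (H.Adj u w ↔ H.Adj v w)

theorem inv_empty {k : ℕ} (T : Finset ℕ) (ℓ : ℕ → Fin k) : Inv k T ∅ ⊥ ℓ := by
  refine ⟨fun u v h => h.elim, ?_⟩
  intro m h1 h2
  simp at h2
  omega

theorem inv_single {k : ℕ} (T : Finset ℕ) (i : ℕ) (ℓ : ℕ → Fin k) : Inv k T {i} ⊥ ℓ := by
  refine ⟨fun u v h => h.elim, ?_⟩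
  intro m h1 h2
  have h3 : (({i} : Finset ℕ) ∩ T).card ≤ 1 :=
    (Finset.card_le_card Finset.inter_subset_left).trans (by simp)
  refine ⟨{i}, subset_rfl, h2, by omega, ℓ, ?_⟩
  intro u _ v _ huv
  exact ⟨huv, fun w hw hw' => absurd hw hw'⟩

theorem inv_union {k : ℕ} (T : Finset ℕ) (S₁ S₂ : Finset ℕ) (H₁ H₂ : SimpleGraph ℕ)
    (ℓ₁ ℓ₂ : ℕ → Fin k) (h₁ : Inv k T S₁ H₁ ℓ₁) (h₂ : Inv k T S₂ H₂ ℓ₂)
    (hd : Disjoint S₁ S₂) :
    Inv k T (S₁ ∪ S₂) (H₁ ⊔ H₂) (fun v => if v ∈ S₁ then ℓ₁ v else ℓ₂ v) := by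
  refine ⟨?_, ?_⟩
  · rintro u v (h | h)
    · exact ⟨Finset.mem_union_left _ (h₁.1 u v h).1, Finset.mem_union_left _ (h₁.1 u v h).2⟩
    · exact ⟨Finset.mem_union_right _ (h₂.1 u v h).1, Finset.mem_union_right _ (h₂.1 u v h).2⟩
  · intro m hm1 hm2
    by_cases c1 : m ≤ (S₁ ∩ T).card
    · obtain ⟨A, hA, h3, h4, g, h5⟩ := h₁.2 m hm1 c1
      refine ⟨A, hA.trans Finset.subset_union_left, h3, h4, g, ?_⟩
      intro u hu v hv huv
      obtain ⟨h6, h7⟩ := h5 u hu v hv huv
      refine ⟨by simp only [hA hu, hA hv, if_true]; exact h6, ?_⟩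
      intro w hw hwA
      have hn : ∀ x ∈ A, ¬ H₂.Adj x w := fun x hx h =>
        Finset.disjoint_left.1 hd (hA hx) (h₂.1 x w h).1
      by_cases hw1 : w ∈ S₁
      · constructor
        · rintro (h | h)
          · exact Or.inl ((h7 w hw1 hwA).1 h)
          · exact absurd h (hn u hu)
        · rintro (h | h)
          · exact Or.inl ((h7 w hw1 hwA).2 h)
          · exact absurd h (hn v hv)
      · constructor
        · rintro (h | h)
          · exact absurd (h₁.1 u w h).2 hw1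
          · exact absurd h (hn u hu)
        · rintro (h | h)
          · exact absurd (h₁.1 v w h).2 hw1
          · exact absurd h (hn v hv)
    · by_cases c2 : m ≤ (S₂ ∩ T).card
      · obtain ⟨A, hA, h3, h4, g, h5⟩ := h₂.2 m hm1 c2
        refine ⟨A, hA.trans Finset.subset_union_right, h3, h4, g, ?_⟩
        intro u hu v hv huv
        obtain ⟨h6, h7⟩ := h5 u hu v hv huv
        have hu1 : u ∉ S₁ := fun h => Finset.disjoint_left.1 hd h (hA hu)
        have hv1 : v ∉ S₁ := fun h => Finset.disjoint_left.1 hd h (hA hv)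
        refine ⟨by simp only [hu1, hv1, if_false]; exact h6, ?_⟩
        intro w hw hwA
        have hn : ∀ x ∈ A, ¬ H₁.Adj x w := fun x hx h =>
          Finset.disjoint_left.1 hd (h₁.1 x w h).1 (hA hx)
        by_cases hw1 : w ∈ S₂
        · constructor
          · rintro (h | h)
            · exact absurd h (hn u hu)
            · exact Or.inr ((h7 w hw1 hwA).1 h)
          · rintro (h | h)
            · exact absurd h (hn v hv)
            · exact Or.inr ((h7 w hw1 hwA).2 h)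
        · constructor
          · rintro (h | h)
            · exact absurd h (hn u hu)
            · exact absurd (h₂.1 u w h).2 hw1
          · rintro (h | h)
            · exact absurd h (hn v hv)
            · exact absurd (h₂.1 v w h).2 hw1
      · refine ⟨S₁ ∪ S₂, subset_rfl, hm2, ?_, (fun v => if v ∈ S₁ then ℓ₁ v else ℓ₂ v), ?_⟩
        · rw [Finset.union_inter_distrib_right]
          have := Finset.card_union_le (S₁ ∩ T) (S₂ ∩ T)
          omega
        · intro u _ v _ huv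
          exact ⟨huv, fun w hw hw' => absurd hw hw'⟩

theorem inv_join {k : ℕ} (T : Finset ℕ) (S : Finset ℕ) (H : SimpleGraph ℕ)
    (ℓ : ℕ → Fin k) (a b : Fin k) (h : Inv k T S H ℓ) :
    Inv k T S (H ⊔ SimpleGraph.fromRel
      (fun u v => u ∈ S ∧ v ∈ S ∧ ℓ u = a ∧ ℓ v = b)) ℓ := by
  refine ⟨?_, ?_⟩
  · rintro u v (h' | h')
    · exact h.1 u v h'
    · rw [SimpleGraph.fromRel_adj] at h'
      rcases h'.2 with h' | h'
      · exact ⟨h'.1, h'.2.1⟩
      · exact ⟨h'.2.1, h'.1⟩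
  · intro m hm1 hm2
    obtain ⟨A, hA, h3, h4, g, h5⟩ := h.2 m hm1 hm2
    refine ⟨A, hA, h3, h4, g, ?_⟩
    intro u hu v hv huv
    obtain ⟨h6, h7⟩ := h5 u hu v hv huv
    refine ⟨h6, ?_⟩
    have aux : ∀ u ∈ A, ∀ v ∈ A, ℓ u = ℓ v → ∀ w, w ∉ A →
        (SimpleGraph.fromRel (fun u v => u ∈ S ∧ v ∈ S ∧ ℓ u = a ∧ ℓ v = b)).Adj u w →
        (SimpleGraph.fromRel (fun u v => u ∈ S ∧ v ∈ S ∧ ℓ u = a ∧ ℓ v = b)).Adj v w := by
      intro u hu v hv huv w hw h8
      rw [SimpleGraph.fromRel_adj] at h8 ⊢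
      refine ⟨fun h9 => hw (h9 ▸ hv), ?_⟩
      rcases h8.2 with ⟨h9, h10, h11, h12⟩ | ⟨h9, h10, h11, h12⟩
      · exact Or.inl ⟨hA hv, h10, huv ▸ h11, h12⟩
      · exact Or.inr ⟨h9, hA hv, h11, huv ▸ h12⟩
    intro w hw hwA
    constructor
    · rintro (h8 | h8)
      · exact Or.inl ((h7 w hw hwA).1 h8)
      · exact Or.inr (aux u hu v hv h6 w hwA h8)
    · rintro (h8 | h8)
      · exact Or.inl ((h7 w hw hwA).2 h8)
      · exact Or.inr (aux v hv u hu h6.symm w hwA h8)

theorem inv_relabel {k : ℕ} (T : Finset ℕ) (S : Finset ℕ) (H : SimpleGraph ℕ)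
    (ℓ : ℕ → Fin k) (a b : Fin k) (h : Inv k T S H ℓ) :
    Inv k T S H (fun v => if ℓ v = a then b else ℓ v) := by
  refine ⟨h.1, ?_⟩
  intro m hm1 hm2
  obtain ⟨A, hA, h3, h4, g, h5⟩ := h.2 m hm1 hm2
  refine ⟨A, hA, h3, h4, g, ?_⟩
  intro u hu v hv huv
  obtain ⟨h6, h7⟩ := h5 u hu v hv huv
  exact ⟨by simp only [h6], h7⟩

end Pool.Agent.V11121.B23
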