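import Mathlib

/-!
Basic facts on connected vertex sets and models of complete graphs.
-/

set_option autoImplicit false

namespace Pool.Agent.V11121

open SimpleGraph

/-- in a connected set `D` that meets `A` and its complement, some edge of `D` leaves `A`. -/
theorem crossing {V : Type*} {G : SimpleGraph V} {D A : Set V} (hD : (G.induce D).Connected)
    {a b : V} (ha : a ∈ D) (haA : a ∈ A) (hb : b ∈ D) (hbA : b ∉ A) :
    ∃ x y, x ∈ D ∧ x ∈ A ∧ y ∈ D ∧ y ∉ A ∧ G.Adj x y := by
  obtain ⟨w⟩ := hD.preconnected ⟨a, ha⟩ ⟨b, hb⟩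
  have key : ∀ (x y : D) (w : (G.induce D).Walk x y), x.1 ∈ A → y.1 ∉ A →
      ∃ x y, x ∈ D ∧ x ∈ A ∧ y ∈ D ∧ y ∉ A ∧ G.Adj x y := by
    intro x y w
    induction w with
    | nil => intro h1 h2; exact absurd h1 h2
    | @cons u v z hadj _ ih =>
      intro h1 h2
      by_cases h3 : v.1 ∈ A
      · exact ih h3 h2
      · exact ⟨u.1, v.1, u.2, h1, v.2, h3, hadj⟩
  exact key _ _ w haA hbA

/-- adding a vertex adjacent to a connected set. -/
theorem conn_insert {V : Type*} {G : SimpleGraph V} {D : Set V} (hD : (G.induce D).Connected)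
    {a b : V} (ha : a ∈ D) (hab : G.Adj a b) : (G.induce (insert b D)).Connected := by
  have h1 : (G.induce ({a, b} : Set V)).Connected := induce_pair_connected_of_adj hab
  have h2 := induce_union_connected hD.preconnected h1.preconnected ⟨a, ha, by simp⟩
  have h3 : D ∪ {a, b} = insert b D := by
    ext x
    simp only [Set.mem_union, Set.mem_insert_iff, Set.mem_singleton_iff]
    constructor
    · rintro (h | h | h)
      · exact Or.inr h
      · exact Or.inr (h ▸ ha)
      · exact Or.inl h
    · rintro (h | h)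
      · exact Or.inr (Or.inr h)
      · exact Or.inl h
  rwa [h3] at h2

/-- From disjoint connected sets `f i` and connected sets `Q i j` meeting `f i` and `f j`, such that
`Q i j` is disjoint from `f k` and `Q k l` for `k` different from `i` and `j`, one gets a
model of the complete graph. -/
theorem exists_model {V : Type*} [Finite V] (G : SimpleGraph V) (T : ℕ) (f : Fin T → Set V)
    (Q : Fin T → Fin T → Set V)
    (hf : ∀ i, (G.induce (f i)).Connected) (hfd : ∀ i j, i ≠ j → Disjoint (f i) (f j))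
    (hQ : ∀ i j, i ≠ j → (G.induce (Q i j)).Connected)
    (hQs : ∀ i j, Q i j = Q j i)
    (hQf : ∀ i j, i ≠ j → (Q i j ∩ f i).Nonempty)
    (hQd : ∀ i j k, i ≠ j → k ≠ i → k ≠ j → Disjoint (Q i j) (f k))
    (hQQ : ∀ i j k l, i ≠ j → k ≠ l → k ≠ i → k ≠ j → Disjoint (Q i j) (Q k l)) :
    ∃ g : Fin T → Set V, (∀ i, (G.induce (g i)).Connected) ∧
      (∀ i j, i ≠ j → Disjoint (g i) (g j)) ∧
      ∀ i j, i ≠ j → ∃ u ∈ g i, ∃ v ∈ g j, G.Adj u v := by
  classical
  let S : Set (Fin T → Set V) := {g | (∀ i, (G.induce (g i)).Connected) ∧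
      (∀ i j, i ≠ j → Disjoint (g i) (g j)) ∧ (∀ i, f i ⊆ g i) ∧
      ∀ i, ∀ x ∈ g i, x ∈ f i ∨ ∃ j, j ≠ i ∧ x ∈ Q i j}
  have hfS : f ∈ S := ⟨hf, hfd, fun i => le_rfl, fun i x hx => Or.inl hx⟩
  obtain ⟨g, ⟨g1, g2, g3, g4⟩, hmax⟩ := Set.exists_max_image S (fun g => ∑ i, (g i).ncard)
    (Set.toFinite S) ⟨f, hfS⟩
  refine ⟨g, g1, g2, ?_⟩
  -- no vertex of `Q i j` outside of `g i` and `g j` is adjacent to `g i`
  have key : ∀ i j, i ≠ j → ∀ b ∈ Q i j, b ∉ g i → b ∉ g j → ∀ a ∈ g i, ¬ G.Adj a b := by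
    intro i j hij b hb hbi hbj a ha hab
    have hbk : ∀ k, k ≠ i → b ∉ g k := by
      intro k hki hbk
      by_cases hkj : k = j
      · exact hbj (hkj ▸ hbk)
      · rcases g4 k b hbk with h | ⟨l, hl, h⟩
        · exact Set.disjoint_left.1 (hQd i j k hij hki hkj) hb h
        · exact Set.disjoint_left.1 (hQQ i j k l hij hl.symm hki hkj) hb h
    let g' : Fin T → Set V := Function.update g i (insert b (g i))
    have hg'i : g' i = insert b (g i) := Function.update_self _ _ _
    have hg'k : ∀ k, k ≠ i → g' k = g k := fun k hk => Function.update_of_ne hk _ _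
    have hg'S : g' ∈ S := by
      refine ⟨?_, ?_, ?_, ?_⟩
      · intro k
        by_cases hk : k = i
        · rw [hk, hg'i]
          exact conn_insert (g1 i) ha hab
        · rw [hg'k k hk]
          exact g1 k
      · have aux : ∀ k, k ≠ i → Disjoint (insert b (g i)) (g k) := by
          intro k hk
          rw [Set.disjoint_left]
          rintro x (hx | hx) hxk
          · exact hbk k hk (hx ▸ hxk)
          · exact Set.disjoint_left.1 (g2 i k hk.symm) hx hxk
        intro k l hkl
        by_cases hk : k = i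
        · have hl : l ≠ i := fun h => hkl (hk.trans h.symm)
          rw [hk, hg'i, hg'k l hl]
          exact aux l hl
        · by_cases hl : l = i
          · rw [hl, hg'i, hg'k k hk]
            exact (aux k hk).symm
          · rw [hg'k k hk, hg'k l hl]
            exact g2 k l hkl
      · intro k
        by_cases hk : k = i
        · rw [hk, hg'i]
          exact (g3 i).trans (Set.subset_insert _ _)
        · rw [hg'k k hk]
          exact g3 k
      · intro k x hx
        by_cases hk : k = i
        · rw [hk, hg'i] at hx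
          rw [hk]
          rcases hx with hx | hx
          · exact Or.inr ⟨j, hij.symm, hx ▸ hb⟩
          · exact g4 i x hx
        · rw [hg'k k hk] at hx
          exact g4 k x hx
    have hle := hmax g' hg'S
    have hlt : ∑ k, (g k).ncard < ∑ k, (g' k).ncard := by
      apply Finset.sum_lt_sum
      · intro k _
        by_cases hk : k = i
        · rw [hk, hg'i]
          exact Set.ncard_le_ncard (Set.subset_insert _ _) (Set.toFinite _)
        · rw [hg'k k hk]
      · refine ⟨i, Finset.mem_univ _, ?_⟩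
        rw [hg'i, Set.ncard_insert_of_notMem hbi (Set.toFinite _)]
        omega
    omega
  intro i j hij
  have hcases : ∃ x y, x ∈ Q i j ∧ x ∈ g i ∧ y ∈ Q i j ∧ y ∉ g i ∧ G.Adj x y := by
    obtain ⟨a, ha1, ha2⟩ := hQf i j hij
    obtain ⟨b, hb1, hb2⟩ := hQf j i hij.symm
    rw [hQs j i] at hb1
    exact crossing (hQ i j hij) ha1 (g3 i ha2) hb1
      (fun h => Set.disjoint_left.1 (g2 i j hij) h (g3 j hb2))
  by_cases hsub : ∀ x ∈ Q i j, x ∈ g i ∨ x ∈ g j
  · obtain ⟨x, y, hx, hxi, hy, hyi, hxy⟩ := hcases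
    rcases hsub y hy with h | h
    · exact absurd h hyi
    · exact ⟨x, hxi, y, h, hxy⟩
  · push Not at hsub
    obtain ⟨z, hz, hzi, hzj⟩ := hsub
    obtain ⟨a, ha1, ha2⟩ := hQf i j hij
    obtain ⟨x, y, hx, hxA, hy, hyA, hxy⟩ := crossing (A := g i ∪ g j) (hQ i j hij) ha1
      (Or.inl (g3 i ha2)) hz (by rintro (h | h); exacts [hzi h, hzj h])
    exfalso
    rcases hxA with h | h
    · exact key i j hij y hy (fun h => hyA (Or.inl h)) (fun h => hyA (Or.inr h)) x h hxy
    · exact key j i hij.symm y (hQs i j ▸ hy) (fun h => hyA (Or.inr h))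
        (fun h => hyA (Or.inl h)) x h hxy

end Pool.Agent.V11121
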