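import Mathlib

/-!
# Reduced bandwidth and linear expansion

Graphs without a `K_{t,t}` subgraph and of reduced bandwidth at most `k` have linear expansion.
-/

set_option autoImplicit false

namespace Pool.Agent.V11121.RBW

open SimpleGraph Finset

/-- finite simple graphs. -/
structure FG where
  V : Type
  fin : Finite V
  G : SimpleGraph V

/-- trigraphs: a black and a red graph on the same finite vertex set. -/
structure Trigraph where
  V : Type
  fin : Finite V
  black : SimpleGraph V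
  red : SimpleGraph V

/-- a graph as a trigraph without red edges. -/
def ofGraph (G : FG) : Trigraph := ⟨G.V, G.fin, G.G, ⊥⟩

/-- the bandwidth of `R` is at most `k`. -/
def BandwidthLE {V : Type} (R : SimpleGraph V) (k : ℕ) : Prop :=
  ∃ ℓ : V ≃ Fin (Nat.card V), ∀ u v, R.Adj u v → |((ℓ u : ℕ) : ℤ) - ((ℓ v : ℕ) : ℤ)| ≤ k

/-- `T'` is obtained from `T` by contracting the vertices `u` and `v` to one vertex. The map `f`
sends the vertices of `T` onto those of `T'`; its only fibre with more than one element is `{u, v}`.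
Two vertices of `T'` are joined by a black edge if all pairs of vertices in their fibres are joined by
black edges, they are not adjacent if no pair of vertices in their fibres is adjacent,
and otherwise they are joined by a red edge. -/
def ContractStep (T T' : Trigraph) : Prop :=
  ∃ (f : T.V → T'.V) (u v : T.V), u ≠ v ∧ f u = f v ∧
    (∀ a b, f a = f b → a = b ∨ (a = u ∧ b = v) ∨ (a = v ∧ b = u)) ∧ Function.Surjective f ∧
    (∀ x y, T'.black.Adj x y ↔ x ≠ y ∧ ∀ a b, f a = x → f b = y → T.black.Adj a b) ∧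
    (∀ x y, T'.red.Adj x y ↔ x ≠ y ∧ ¬ (∀ a b, f a = x → f b = y → T.black.Adj a b) ∧
      ¬ (∀ a b, f a = x → f b = y → ¬ T.black.Adj a b ∧ ¬ T.red.Adj a b))

/-- `Reduces k T`: there is a sequence of contractions that starts with `T` and ends
with a trigraph with at most one vertex, such that all red graphs in the sequence have bandwidth at
most `k`. -/
inductive Reduces (k : ℕ) : Trigraph → Prop
  | last (T : Trigraph) : Nat.card T.V ≤ 1 → BandwidthLE T.red k → Reduces k T
  | step (T T' : Trigraph) : BandwidthLE T.red k → ContractStep T T' → Reduces k T' →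
      Reduces k T

/-- the reduced bandwidth of `G` is at most `k`. -/
def ReducedBandwidthLE (G : FG) (k : ℕ) : Prop := Reduces k (ofGraph G)

/-- `G` has a subgraph `K_{s,t}`. -/
def HasBiclique {V : Type} (G : SimpleGraph V) (s t : ℕ) : Prop :=
  ∃ (f : Fin s → V) (g : Fin t → V), Function.Injective f ∧ Function.Injective g ∧
    ∀ i j, G.Adj (f i) (g j)

/-- `B` is a model of `H` in `G` with branch sets of radius at most `r`. -/
def IsShallowModel {W V : Type} (r : ℕ) (H : SimpleGraph W) (G : SimpleGraph V)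
    (B : W → Set V) : Prop :=
  (∀ i j, i ≠ j → Disjoint (B i) (B j)) ∧
  (∀ i, ∃ x ∈ B i, ∀ y ∈ B i, ∃ p : G.Walk x y, p.length ≤ r ∧ ∀ w ∈ p.support, w ∈ B i) ∧
  (∀ i j, H.Adj i j → ∃ a ∈ B i, ∃ b ∈ B j, G.Adj a b)

/-- `H` is an `r`-shallow minor of `G`. -/
def IsShallowMinor (r : ℕ) (H G : FG) : Prop := ∃ B, IsShallowModel r H.G G.G B

theorem Reduces.bw {k : ℕ} {T : Trigraph} (h : Reduces k T) : BandwidthLE T.red k := by
  cases h with
  | last _ _ h => exact h
  | step _ _ h _ _ => exact h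

/-- balls in graphs of small bandwidth are small. -/
theorem ball_card {V : Type} [Finite V] {R : SimpleGraph V} {k : ℕ} (h : BandwidthLE R k) (x : V)
    (ρ : ℕ) : {y | ∃ p : R.Walk x y, p.length ≤ ρ}.ncard ≤ 2 * (k * ρ) + 1 := by
  obtain ⟨ℓ, hℓ⟩ := h
  have key : ∀ (x y : V) (p : R.Walk x y),
      |((ℓ x : ℕ) : ℤ) - ((ℓ y : ℕ) : ℤ)| ≤ k * p.length := by
    intro x y p
    induction p with
    | nil => simp
    | @cons u v w huv p ih =>
      have h1 := hℓ u v huv
      rw [Walk.length_cons]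
      push_cast
      calc |((ℓ u : ℕ) : ℤ) - ((ℓ w : ℕ) : ℤ)|
          = |(((ℓ u : ℕ) : ℤ) - ((ℓ v : ℕ) : ℤ)) + (((ℓ v : ℕ) : ℤ) - ((ℓ w : ℕ) : ℤ))| := by
            congr 1
            ring
        _ ≤ |((ℓ u : ℕ) : ℤ) - ((ℓ v : ℕ) : ℤ)| + |((ℓ v : ℕ) : ℤ) - ((ℓ w : ℕ) : ℤ)| :=
            abs_add_le _ _
        _ ≤ k + k * p.length := add_le_add h1 ih
        _ = k * (p.length + 1) := by ring
  have h1 : {y | ∃ p : R.Walk x y, p.length ≤ ρ}.ncard ≤
      ((Finset.Icc (((ℓ x : ℕ) : ℤ) - k * ρ) (((ℓ x : ℕ) : ℤ) + k * ρ) : Finset ℤ) :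
        Set ℤ).ncard := by
    apply Set.ncard_le_ncard_of_injOn (fun y => ((ℓ y : ℕ) : ℤ))
    · rintro y ⟨p, hp⟩
      have h2 := key x y p
      have h3 : (k : ℤ) * p.length ≤ k * ρ := by
        apply mul_le_mul_of_nonneg_left _ (Nat.cast_nonneg _)
        exact_mod_cast hp
      rw [abs_le] at h2
      rw [Finset.mem_coe, Finset.mem_Icc]
      constructor
      · linarith [h2.2]
      · linarith [h2.1]
    · intro y _ y' _ hyy
      apply ℓ.injective
      apply Fin.ext
      have h2 : ((ℓ y : ℕ) : ℤ) = ((ℓ y' : ℕ) : ℤ) := hyy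
      exact_mod_cast h2
  rw [Set.ncard_coe_finset, Int.card_Icc] at h1
  refine h1.trans ?_
  have : ((ℓ x : ℕ) : ℤ) + k * ρ + 1 - (((ℓ x : ℕ) : ℤ) - k * ρ) = ((2 * (k * ρ) + 1 : ℕ) : ℤ) := by
    push_cast
    ring
  rw [this, Int.toNat_natCast]

section main

variable {V X X' : Type} [Fintype V] {G : SimpleGraph V}

/-- all pairs between the fibres of `x` and `y` are adjacent. -/
def Blk (G : SimpleGraph V) (π : V → X) (x y : X) : Prop :=
  x ≠ y ∧ ∀ a b, π a = x → π b = y → G.Adj a b

/-- `R` is the red graph of the partition into the fibres of `π`. -/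
def IsRed (G : SimpleGraph V) (π : V → X) (R : SimpleGraph X) : Prop :=
  ∀ x y, R.Adj x y ↔ x ≠ y ∧ ¬ Blk G π x y ∧ ∃ a b, π a = x ∧ π b = y ∧ G.Adj a b

/-- big fibres. -/
def Big (π : V → X) (t : ℕ) (x : X) : Prop := t ≤ {a | π a = x}.ncard

omit [Fintype V] in
theorem hasBiclique_of_sets [Finite V] {t : ℕ} {P Q : Set V} (hP : t ≤ P.ncard)
    (hQ : t ≤ Q.ncard) (h : ∀ a ∈ P, ∀ b ∈ Q, G.Adj a b) : HasBiclique G t t := by
  have key : ∀ P : Set V, t ≤ P.ncard → ∃ f : Fin t → V, Function.Injective f ∧ ∀ i, f i ∈ P := by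
    intro P hP
    obtain ⟨P', hP', hc⟩ := Set.exists_subset_card_eq hP
    have hfin : P'.Finite := Set.toFinite _
    have e : Fin t ≃ P' := by
      have : Nat.card P' = t := by rw [Nat.card_coe_set_eq, hc]
      have : Finite P' := hfin
      exact (Finite.equivFinOfCardEq (by assumption)).symm
    exact ⟨fun i => (e i).1, fun i j hij => e.injective (Subtype.ext hij), fun i => hP' (e i).2⟩
  obtain ⟨f, hf1, hf2⟩ := key P hP
  obtain ⟨g, hg1, hg2⟩ := key Q hQ
  exact ⟨f, g, hf1, hg1, fun i j => h _ (hf2 i) _ (hg2 j)⟩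

theorem not_blk_of_big {π : V → X} {t : ℕ} (hG : ¬ HasBiclique G t t) {x y : X}
    (hx : Big π t x) (hy : Big π t y) : ¬ Blk G π x y := by
  intro h
  exact hG (hasBiclique_of_sets hx hy (fun a ha b hb => h.2 a b ha hb))

theorem blk_card {π : V → X} {t : ℕ} (hG : ¬ HasBiclique G t t) {x : X}
    (hx : Big π t x) : {b | Blk G π x (π b)}.ncard < t := by
  by_contra hcon
  push Not at hcon
  exact hG (hasBiclique_of_sets hx hcon (fun a ha b hb => hb.2 a b ha rfl))

omit [Fintype V] in
/-- red walks in the old partition give red walks in the new partition. -/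
theorem walk_map {π : V → X} {f : X → X'} {R : SimpleGraph X} {R' : SimpleGraph X'}
    (hR : IsRed G π R) (hR' : IsRed G (f ∘ π) R') {x y : X} (p : R.Walk x y) :
    ∃ p' : R'.Walk (f x) (f y), p'.length ≤ p.length := by
  induction p with
  | nil => exact ⟨Walk.nil, le_rfl⟩
  | @cons u v w huv p ih =>
    obtain ⟨p', hp'⟩ := ih
    by_cases hf : f u = f v
    · rw [hf]
      exact ⟨p', by rw [Walk.length_cons]; omega⟩
    · obtain ⟨h1, h2, a, b, ha, hb, hab⟩ := (hR u v).1 huv
      have hadj : R'.Adj (f u) (f v) := by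
        rw [hR']
        refine ⟨hf, ?_, a, b, by rw [Function.comp, ha], by rw [Function.comp, hb], hab⟩
        rintro ⟨_, h3⟩
        apply h2
        refine ⟨h1, ?_⟩
        intro c d hc hd
        exact h3 c d (by rw [Function.comp, hc]) (by rw [Function.comp, hd])
      exact ⟨Walk.cons hadj p', by rw [Walk.length_cons, Walk.length_cons]; omega⟩

omit [Fintype V] in
/-- a walk inside `C` that ends in a small part meets a bad vertex near its start. -/
theorem bad_near {π : V → X} {R : SimpleGraph X} (hR : IsRed G π R) {t : ℕ} {C : Set V}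
    {a b : V} (p : G.Walk a b) (hp : ∀ w ∈ p.support, w ∈ C) (hb : ¬ Big π t (π b)) :
    ∃ z ∈ C, ∃ Z, (∃ q : R.Walk (π a) Z, q.length ≤ p.length) ∧
      ((π z = Z ∧ ¬ Big π t Z) ∨ (Big π t Z ∧ Blk G π Z (π z))) := by
  induction p with
  | @nil u => exact ⟨u, hp u (by simp), π u, ⟨Walk.nil, le_rfl⟩, Or.inl ⟨rfl, hb⟩⟩
  | @cons u v w huv p ih =>
    by_cases hu : Big π t (π u)
    · have huC : u ∈ C := hp u (by simp)
      have hvC : v ∈ C := hp v (by simp)
      obtain ⟨z, hz, Z, ⟨q, hq⟩, hZ⟩ := ih (fun x hx => hp x (by simp [hx])) hb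
      by_cases huv' : π u = π v
      · rw [huv']
        exact ⟨z, hz, Z, ⟨q, by rw [Walk.length_cons]; omega⟩, hZ⟩
      · by_cases hblk : Blk G π (π u) (π v)
        · exact ⟨v, hvC, π u, ⟨Walk.nil, by simp⟩, Or.inr ⟨hu, hblk⟩⟩
        · have hadj : R.Adj (π u) (π v) := (hR _ _).2 ⟨huv', hblk, u, v, rfl, rfl, huv⟩
          exact ⟨z, hz, Z, ⟨Walk.cons hadj q, by rw [Walk.length_cons, Walk.length_cons]; omega⟩, hZ⟩
    · exact ⟨u, hp u (by simp), π u, ⟨Walk.nil, by simp⟩, Or.inl ⟨rfl, hu⟩⟩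

/-- walks through big parts give red walks. -/
theorem red_walk {π : V → X} {R : SimpleGraph X} (hR : IsRed G π R) {t : ℕ}
    (hG : ¬ HasBiclique G t t) {a b : V} (p : G.Walk a b)
    (hp : ∀ w ∈ p.support, Big π t (π w)) : ∃ q : R.Walk (π a) (π b), q.length ≤ p.length := by
  induction p with
  | nil => exact ⟨Walk.nil, le_rfl⟩
  | @cons u v w huv p ih =>
    obtain ⟨q, hq⟩ := ih (fun x hx => hp x (by simp [hx]))
    by_cases huv' : π u = π v
    · rw [huv']
      exact ⟨q, by rw [Walk.length_cons]; omega⟩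
    · have hadj : R.Adj (π u) (π v) :=
        (hR _ _).2 ⟨huv', not_blk_of_big hG (hp u (by simp)) (hp v (by simp)), u, v, rfl, rfl, huv⟩
      exact ⟨Walk.cons hadj q, by rw [Walk.length_cons, Walk.length_cons]; omega⟩

/-- the degree bound at the first time when some branch set lies in big parts. -/
theorem degree_bound [Finite X] [Finite X'] {π : V → X} {f : X → X'} {R : SimpleGraph X}
    {R' : SimpleGraph X'} (hR : IsRed G π R) (hR' : IsRed G (f ∘ π) R') {t k r : ℕ}
    (ht : 1 ≤ t) (hG : ¬ HasBiclique G t t) (hbw : BandwidthLE R' k) {u v : X} (huv : f u = f v)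
    (hf : ∀ a b, f a = f b → a = b ∨ (a = u ∧ b = v) ∨ (a = v ∧ b = u))
    {W : Type} [Finite W] {H : SimpleGraph W} {B : W → Set V} (hB : IsShallowModel r H G B)
    (hold : ∀ w, ∃ x ∈ B w, ¬ Big π t (π x)) {w0 : W}
    (hnew : ∀ x ∈ B w0, Big (f ∘ π) t (f (π x))) :
    {w | H.Adj w0 w}.ncard ≤ (8 * (k * r) + 2 * k + 3) * (t - 1) := by
  classical
  obtain ⟨hB1, hB2, hB3⟩ := hB
  -- the branch set touches the new part
  have hfib : ∀ x, f x ≠ f u → {a | (f ∘ π) a = f x} = {a | π a = x} := by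
    intro x hx
    ext a
    constructor
    · intro ha
      rcases hf (π a) x ha with h | ⟨_, h⟩ | ⟨_, h⟩
      · exact h
      · exact absurd (by rw [h, ← huv]) hx
      · exact absurd (by rw [h]) hx
    · intro ha
      have : π a = x := ha
      show f (π a) = f x
      rw [this]
  obtain ⟨x0, hx0B, hx0⟩ := hold w0
  have hx0A : f (π x0) = f u := by
    by_contra hne
    apply hx0
    have h1 := hnew x0 hx0B
    unfold Big at h1 ⊢
    rwa [hfib _ hne] at h1
  -- walks inside branch sets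
  have hwalk : ∀ w, ∀ x ∈ B w, ∀ y ∈ B w, ∃ p : G.Walk x y, p.length ≤ 2 * r ∧
      ∀ z ∈ p.support, z ∈ B w := by
    intro w x hx y hy
    obtain ⟨c, _, hc⟩ := hB2 w
    obtain ⟨p, hp1, hp2⟩ := hc x hx
    obtain ⟨q, hq1, hq2⟩ := hc y hy
    refine ⟨p.reverse.append q, ?_, ?_⟩
    · rw [Walk.length_append, Walk.length_reverse]
      omega
    · intro z hz
      rw [Walk.mem_support_append_iff] at hz
      rcases hz with hz | hz
      · rw [Walk.support_reverse, List.mem_reverse] at hz
        exact hp2 z hz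
      · exact hq2 z hz
  -- the old parts near the new part
  obtain ⟨Ball, hBall⟩ : ∃ Ball : Set X', Ball = {y | ∃ p : R'.Walk (f u) y, p.length ≤ 4 * r + 1} :=
    ⟨_, rfl⟩
  have hBallc : Ball.ncard ≤ 2 * (k * (4 * r + 1)) + 1 := hBall ▸ ball_card hbw (f u) (4 * r + 1)
  have hpre : (f ⁻¹' Ball).ncard ≤ Ball.ncard + 1 := by
    have h1 : f ⁻¹' Ball ⊆ insert v (f ⁻¹' Ball \ {v}) := by
      intro z hz
      by_cases hzv : z = v
      · exact Or.inl hzv
      · exact Or.inr ⟨hz, hzv⟩
    refine (Set.ncard_le_ncard h1 (Set.toFinite _)).trans ((Set.ncard_insert_le _ _).trans ?_)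
    apply Nat.add_le_add_right
    apply Set.ncard_le_ncard_of_injOn f
    · rintro z ⟨hz, _⟩
      exact hz
    · rintro z ⟨_, hz⟩ z' ⟨_, hz'⟩ hzz
      rcases hf z z' hzz with h | ⟨_, h⟩ | ⟨h, _⟩
      · exact h
      · exact absurd h hz'
      · exact absurd h hz
  -- bad vertices
  obtain ⟨bad, hbad⟩ : ∃ bad : X → Set V, bad = fun Z =>
    {z | (π z = Z ∧ ¬ Big π t Z) ∨ (Big π t Z ∧ Blk G π Z (π z))} := ⟨_, rfl⟩
  have hbadc : ∀ Z, (bad Z).ncard ≤ t - 1 := by
    intro Z
    by_cases hZ : Big π t Z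
    · have h1 : bad Z = {b | Blk G π Z (π b)} := by
        rw [hbad]
        ext z
        simp [hZ]
      rw [h1]
      have := blk_card hG hZ
      omega
    · have h1 : bad Z = {a | π a = Z} := by
        rw [hbad]
        ext z
        simp [hZ]
      rw [h1]
      unfold Big at hZ
      omega
  obtain ⟨All, hAll⟩ : ∃ All : Set V, All = (⋃ Z ∈ f ⁻¹' Ball, bad Z) ∪
    {b | Blk G (f ∘ π) (f u) (f (π b))} := ⟨_, rfl⟩
  have hbigA : Big (f ∘ π) t (f u) := hx0A ▸ hnew x0 hx0B
  have hAllc : All.ncard ≤ (8 * (k * r) + 2 * k + 3) * (t - 1) := by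
    rw [hAll]
    refine (Set.ncard_union_le _ _).trans ?_
    have h1 : (⋃ Z ∈ f ⁻¹' Ball, bad Z).ncard ≤ (f ⁻¹' Ball).ncard * (t - 1) := by
      have hfin : (f ⁻¹' Ball).Finite := Set.toFinite _
      have h2 : (⋃ Z ∈ f ⁻¹' Ball, bad Z) =
          ((hfin.toFinset.biUnion (fun Z => (Set.toFinite (bad Z)).toFinset) : Finset V) : Set V) := by
        ext z
        rw [Finset.mem_coe, Finset.mem_biUnion, Set.mem_iUnion₂]
        constructor
        · rintro ⟨Z, hZ, hz⟩
          exact ⟨Z, hfin.mem_toFinset.2 hZ, (Set.toFinite (bad Z)).mem_toFinset.2 hz⟩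
        · rintro ⟨Z, hZ, hz⟩
          exact ⟨Z, hfin.mem_toFinset.1 hZ, (Set.toFinite (bad Z)).mem_toFinset.1 hz⟩
      rw [h2, Set.ncard_coe_finset]
      refine card_biUnion_le_card_mul _ _ (t - 1) ?_ |>.trans ?_
      · intro Z _
        rw [← Set.ncard_eq_toFinset_card _ (Set.toFinite (bad Z))]
        exact hbadc Z
      · rw [← Set.ncard_eq_toFinset_card _ hfin]
    have h2 : {b | Blk G (f ∘ π) (f u) (f (π b))}.ncard ≤ t - 1 := by
      have := blk_card (π := f ∘ π) hG hbigA
      have h3 : {b | Blk G (f ∘ π) (f u) ((f ∘ π) b)} = {b | Blk G (f ∘ π) (f u) (f (π b))} := rfl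
      rw [h3] at this
      omega
    have h3 : (f ⁻¹' Ball).ncard ≤ 8 * (k * r) + 2 * k + 2 := by
      refine hpre.trans ?_
      have : 2 * (k * (4 * r + 1)) = 8 * (k * r) + 2 * k := by ring
      omega
    have h4 := Nat.mul_le_mul_right (t - 1) h3
    calc (⋃ Z ∈ f ⁻¹' Ball, bad Z).ncard + {b | Blk G (f ∘ π) (f u) (f (π b))}.ncard
        ≤ (8 * (k * r) + 2 * k + 2) * (t - 1) + (t - 1) := by omega
      _ = _ := by ring
  -- every neighbour contains a bad vertex
  have hex : ∀ w, H.Adj w0 w → ∃ z ∈ B w, z ∈ All := by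
    intro w hw
    obtain ⟨x, hx, y, hy, hxy⟩ := hB3 w0 w hw
    -- the red walk from the new part to the part of `x`
    obtain ⟨p, hp1, hp2⟩ := hwalk w0 x0 hx0B x hx
    obtain ⟨q, hq⟩ := red_walk hR' hG p (fun z hz => hnew z (hp2 z hz))
    obtain ⟨q', hq'⟩ : ∃ q' : R'.Walk (f u) (f (π x)), q'.length ≤ 2 * r := by
      have h1 : (f ∘ π) x0 = f u := hx0A
      rw [← h1]
      exact ⟨q, hq.trans hp1⟩
    -- the case when `y` lies in a part near the new part
    have hnear : (∃ q'' : R'.Walk (f u) (f (π y)), q''.length ≤ 2 * r + 1) → ∃ z ∈ B w, z ∈ All := by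
      rintro ⟨q'', hq''⟩
      obtain ⟨y', hy', hysm⟩ := hold w
      obtain ⟨p', hp1', hp2'⟩ := hwalk w y hy y' hy'
      obtain ⟨z, hz, Z, ⟨s, hs⟩, hZ⟩ := bad_near hR p' hp2' hysm
      obtain ⟨s', hs'⟩ := walk_map hR hR' s
      refine ⟨z, hz, ?_⟩
      rw [hAll]
      left
      simp only [Set.mem_iUnion]
      refine ⟨Z, ?_, ?_⟩
      · show f Z ∈ Ball
        rw [hBall]
        refine ⟨q''.append s', ?_⟩
        rw [Walk.length_append]
        omega
      · rw [hbad]
        exact hZ
    by_cases hsame : f (π x) = f (π y)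
    · apply hnear
      rw [← hsame]
      exact ⟨q', by omega⟩
    · by_cases hblk : Blk G (f ∘ π) (f (π x)) (f (π y))
      · refine ⟨y, hy, ?_⟩
        rw [hAll]
        by_cases hxA : f (π x) = f u
        · right
          rw [hxA] at hblk
          exact hblk
        · left
          simp only [Set.mem_iUnion]
          refine ⟨π x, ?_, ?_⟩
          · show f (π x) ∈ Ball
            rw [hBall]
            exact ⟨q', by omega⟩
          · rw [hbad]
            right
            constructor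
            · have h1 := hnew x hx
              unfold Big at h1 ⊢
              rwa [hfib _ hxA] at h1
            · refine ⟨fun h => hsame (by rw [h]), ?_⟩
              intro a b ha hb
              exact hblk.2 a b (by show f (π a) = _; rw [ha]) (by show f (π b) = _; rw [hb])
      · apply hnear
        have hadj : R'.Adj (f (π x)) (f (π y)) := (hR' _ _).2 ⟨hsame, hblk, x, y, rfl, rfl, hxy⟩
        exact ⟨q'.concat hadj, by rw [Walk.length_concat]; omega⟩
  choose g hg1 hg2 using hex
  refine le_trans ?_ hAllc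
  rw [← Nat.card_coe_set_eq, ← Nat.card_coe_set_eq]
  apply Nat.card_le_card_of_injective
    (fun w : {w | H.Adj w0 w} => (⟨g w.1 w.2, hg2 w.1 w.2⟩ : All))
  rintro ⟨w, hw⟩ ⟨w', hw'⟩ hww
  apply Subtype.ext
  by_contra hne
  have h1 : g w hw = g w' hw' := congrArg Subtype.val hww
  exact Set.disjoint_left.1 (hB1 w w' hne) (hg1 w hw) (h1 ▸ hg1 w' hw')

end main

/-- the trigraph `T` is the one of the partition of `G` into the fibres of `π`. -/
def Homog {V : Type} (G : SimpleGraph V) (T : Trigraph) (π : V → T.V) : Prop :=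
  (∀ x y, T.black.Adj x y ↔ Blk G π x y) ∧ IsRed G π T.red

theorem homog_step {V : Type} {G : SimpleGraph V} {T T' : Trigraph} {π : V → T.V}
    (hπ : Function.Surjective π) (h : Homog G T π) {f : T.V → T'.V}
    (hb : ∀ x y, T'.black.Adj x y ↔ x ≠ y ∧ ∀ a b, f a = x → f b = y → T.black.Adj a b)
    (hr : ∀ x y, T'.red.Adj x y ↔ x ≠ y ∧ ¬ (∀ a b, f a = x → f b = y → T.black.Adj a b) ∧
      ¬ (∀ a b, f a = x → f b = y → ¬ T.black.Adj a b ∧ ¬ T.red.Adj a b)) :
    Homog G T' (f ∘ π) := by
  obtain ⟨h1, h2⟩ := h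
  have key : ∀ x y, x ≠ y → ((∀ a b, f a = x → f b = y → T.black.Adj a b) ↔
      Blk G (f ∘ π) x y) := by
    intro x y hxy
    constructor
    · intro hall
      refine ⟨hxy, ?_⟩
      intro α β hα hβ
      exact ((h1 _ _).1 (hall (π α) (π β) hα hβ)).2 α β rfl rfl
    · rintro ⟨_, hall⟩ a b rfl rfl
      rw [h1]
      refine ⟨fun hab => hxy (by rw [hab]), ?_⟩
      rintro α β rfl rfl
      exact hall α β rfl rfl
  constructor
  · intro x y
    rw [hb]
    constructor
    · rintro ⟨hxy, hall⟩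
      exact (key x y hxy).1 hall
    · intro hall
      exact ⟨hall.1, (key x y hall.1).2 hall⟩
  · intro x y
    rw [hr]
    constructor
    · rintro ⟨hxy, hnb, hna⟩
      refine ⟨hxy, fun hblk => hnb ((key x y hxy).2 hblk), ?_⟩
      by_contra hcon
      push Not at hcon
      apply hna
      rintro a b rfl rfl
      constructor
      · intro hab
        obtain ⟨α, rfl⟩ := hπ a
        obtain ⟨β, rfl⟩ := hπ b
        exact hcon α β rfl rfl (((h1 _ _).1 hab).2 α β rfl rfl)
      · intro hab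
        obtain ⟨_, _, α, β, rfl, rfl, hadj⟩ := (h2 _ _).1 hab
        exact hcon α β rfl rfl hadj
    · rintro ⟨hxy, hnb, α, β, rfl, rfl, hadj⟩
      refine ⟨hxy, fun hall => hnb ((key _ _ hxy).1 hall), ?_⟩
      intro hall
      obtain ⟨c1, c2⟩ := hall (π α) (π β) rfl rfl
      have hne : π α ≠ π β := fun h => hxy (by simp only [Function.comp, h])
      by_cases hblk : Blk G π (π α) (π β)
      · exact c1 ((h1 _ _).2 hblk)
      · exact c2 ((h2 _ _).2 ⟨hne, hblk, α, β, rfl, rfl, hadj⟩)

/-- some branch set has small degree. -/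
theorem exists_small {k : ℕ} {T : Trigraph} (hT : Reduces k T) {V : Type} [Fintype V]
    {G : SimpleGraph V} {t r : ℕ} (ht : 1 ≤ t) (hV : t ≤ Nat.card V)
    (hG : ¬ HasBiclique G t t) {W : Type} [Finite W] [Nonempty W] {H : SimpleGraph W}
    {B : W → Set V} (hB : IsShallowModel r H G B) :
    ∀ π : V → T.V, Function.Surjective π → Homog G T π →
      (∀ w, ∃ x ∈ B w, ¬ Big π t (π x)) →
      ∃ w0, {w | H.Adj w0 w}.ncard ≤ (8 * (k * r) + 2 * k + 3) * (t - 1) := by
  induction hT with
  | last T hcard _ =>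
    intro π _ _ hold
    exfalso
    obtain ⟨w⟩ := ‹Nonempty W›
    obtain ⟨x, _, hx⟩ := hold w
    apply hx
    have hfin := T.fin
    have hsub : Subsingleton T.V := Finite.card_le_one_iff_subsingleton.1 hcard
    have : {a | π a = π x} = Set.univ := by
      ext a
      simp only [Set.mem_ofPred_eq, Set.mem_univ, iff_true]
      exact Subsingleton.elim _ _
    unfold Big
    rw [this, Set.ncard_univ]
    exact hV
  | step T T' hbw hstep hT' ih =>
    intro π hπ hhom hold
    obtain ⟨f, u, v, huv, hfuv, hf, hsurj, hb, hr⟩ := hstep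
    have hhom' := homog_step hπ hhom hb hr
    have := T.fin
    have := T'.fin
    by_cases hnew : ∃ w0, ∀ x ∈ B w0, Big (f ∘ π) t (f (π x))
    · obtain ⟨w0, hw0⟩ := hnew
      exact ⟨w0, degree_bound hhom.2 hhom'.2 ht hG hT'.bw hfuv hf hB hold hw0⟩
    · push Not at hnew
      exact ih (f ∘ π) (hsurj.comp hπ) hhom' hnew

/-- every shallow minor has a vertex of small degree. -/
theorem exists_degree {k : ℕ} {G : FG} (hk : ReducedBandwidthLE G k) {t r : ℕ} (ht : 2 ≤ t)
    (hG : ¬ HasBiclique G.G t t) {W : Type} [Finite W] [Nonempty W] {H : SimpleGraph W}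
    {B : W → Set G.V} (hB : IsShallowModel r H G.G B) :
    ∃ w0, {w | H.Adj w0 w}.ncard ≤ (8 * (k * r) + 2 * k + 3) * (t - 1) := by
  classical
  have := G.fin
  have := Fintype.ofFinite G.V
  by_cases hV : t ≤ Nat.card G.V
  · apply exists_small (T := ofGraph G) hk (by omega) hV hG hB id Function.surjective_id
    · constructor
      · intro x y
        constructor
        · intro hxy
          have hxy' : G.G.Adj x y := hxy
          exact ⟨hxy'.ne, by rintro a b rfl rfl; exact hxy'⟩
        · rintro ⟨_, h⟩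
          exact h x y rfl rfl
      · intro x y
        constructor
        · intro h
          exact (show False from h).elim
        · rintro ⟨hne, hnb, a, b, rfl, rfl, hab⟩
          exfalso
          apply hnb
          exact ⟨hne, by rintro c d rfl rfl; exact hab⟩
    · intro w
      obtain ⟨x, hx, _⟩ := hB.2.1 w
      refine ⟨x, hx, ?_⟩
      intro hbig
      have h1 : {a : G.V | a = x}.ncard = 1 := by
        have h2 : {a : G.V | a = x} = {x} := rfl
        rw [h2, Set.ncard_singleton]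
      have h2 : t ≤ {a : G.V | a = x}.ncard := hbig
      omega
  · -- few vertices
    obtain ⟨w0⟩ := ‹Nonempty W›
    refine ⟨w0, ?_⟩
    have h1 : Nat.card W ≤ Nat.card G.V := by
      have hne : ∀ w, ∃ x, x ∈ B w := fun w => by
        obtain ⟨x, hx, _⟩ := hB.2.1 w
        exact ⟨x, hx⟩
      choose g hg using hne
      apply Nat.card_le_card_of_injective g
      intro w w' hww
      by_contra hne
      exact Set.disjoint_left.1 (hB.1 w w' hne) (hg w) (hww ▸ hg w')
    have h2 : {w | H.Adj w0 w}.ncard ≤ Nat.card W := by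
      rw [← Set.ncard_univ]
      exact Set.ncard_le_ncard (Set.subset_univ _) (Set.toFinite _)
    have h3 : 1 * (t - 1) ≤ (8 * (k * r) + 2 * k + 3) * (t - 1) :=
      Nat.mul_le_mul_right _ (by omega)
    omega

/-- graphs all of whose nonempty induced subgraphs have a vertex of degree at most `D` have at
most `D n` edges. -/
theorem edges_le {D : ℕ} (n : ℕ) : ∀ (W : Type) (_ : Fintype W) (H : SimpleGraph W),
    Fintype.card W = n → (∀ S : Set W, S.Nonempty → ∃ x ∈ S, {y ∈ S | H.Adj x y}.ncard ≤ D) →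
    H.edgeSet.ncard ≤ D * n := by
  classical
  induction n with
  | zero =>
    intro W _ H hc _
    have hW : IsEmpty W := Fintype.card_eq_zero_iff.1 hc
    have : H.edgeSet = ∅ := by
      ext e
      simp only [Set.mem_empty_iff_false, iff_false]
      intro _
      induction e using Sym2.ind with
      | _ a _ => exact hW.elim a
    rw [this]
    simp
  | succ n ih =>
    intro W _ H hc h
    have hne : Nonempty W := Fintype.card_pos_iff.1 (by omega)
    obtain ⟨x, _, hx⟩ := h Set.univ Set.univ_nonempty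
    -- remove `x`
    have hc' : Fintype.card {y : W // y ≠ x} = n := by
      rw [Fintype.card_subtype_compl, Fintype.card_subtype_eq]
      omega
    let H' : SimpleGraph {y : W // y ≠ x} := H.comap Subtype.val
    have h' : ∀ S : Set {y : W // y ≠ x}, S.Nonempty →
        ∃ z ∈ S, {y ∈ S | H'.Adj z y}.ncard ≤ D := by
      intro S hS
      obtain ⟨_, ⟨z, hz, rfl⟩, h2⟩ := h (Subtype.val '' S) (hS.image _)
      refine ⟨z, hz, le_trans ?_ h2⟩
      apply Set.ncard_le_ncard_of_injOn Subtype.val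
      · rintro y ⟨hy, hzy⟩
        exact ⟨⟨y, hy, rfl⟩, hzy⟩
      · exact fun a _ b _ hab => Subtype.ext hab
    have h1 := ih _ inferInstance H' hc' h'
    have hsub : H.edgeSet ⊆ (Sym2.map Subtype.val '' H'.edgeSet) ∪
        ((fun y => s(x, y)) '' {y ∈ Set.univ | H.Adj x y}) := by
      intro e he
      induction e using Sym2.ind with
      | _ a b =>
        rw [mem_edgeSet] at he
        by_cases ha : a = x
        · right
          subst ha
          exact ⟨b, ⟨Set.mem_univ _, he⟩, rfl⟩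
        · by_cases hb : b = x
          · right
            subst hb
            exact ⟨a, ⟨Set.mem_univ _, he.symm⟩, Sym2.eq_swap⟩
          · left
            refine ⟨s(⟨a, ha⟩, ⟨b, hb⟩), ?_, rfl⟩
            rw [mem_edgeSet]
            exact he
    calc H.edgeSet.ncard ≤ _ := Set.ncard_le_ncard hsub (Set.toFinite _)
      _ ≤ _ := Set.ncard_union_le _ _
      _ ≤ H'.edgeSet.ncard + {y ∈ Set.univ | H.Adj x y}.ncard :=
          add_le_add (Set.ncard_image_le (Set.toFinite _)) (Set.ncard_image_le (Set.toFinite _))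
      _ ≤ D * n + D := add_le_add h1 hx
      _ = D * (n + 1) := by ring

/-- the bound on the density of shallow minors. -/
theorem shallow_bound {k : ℕ} {G H : FG} (hk : ReducedBandwidthLE G k) {t r : ℕ} (ht : 2 ≤ t)
    (hG : ¬ HasBiclique G.G t t) (hH : IsShallowMinor r H G) :
    H.G.edgeSet.ncard ≤ ((8 * (k * r) + 2 * k + 3) * (t - 1)) * Nat.card H.V := by
  classical
  obtain ⟨B, hB1, hB2, hB3⟩ := hH
  have := H.fin
  have := Fintype.ofFinite H.V
  rw [Nat.card_eq_fintype_card]
  apply edges_le _ H.V inferInstance H.G rfl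
  intro S hS
  have hne : Nonempty S := hS.to_subtype
  obtain ⟨⟨w, hw⟩, h1⟩ := exists_degree (W := S) (H := H.G.induce S) (B := fun w => B w.1) hk ht hG
    ⟨fun i j hij => hB1 _ _ (fun h => hij (Subtype.ext h)), fun i => hB2 i.1,
      fun i j hij => hB3 _ _ hij⟩
  refine ⟨w, hw, le_trans ?_ h1⟩
  have h2 : {y ∈ S | H.G.Adj w y} = Subtype.val '' {y : S | (H.G.induce S).Adj ⟨w, hw⟩ y} := by
    ext y
    constructor
    · rintro ⟨hy, hwy⟩
      exact ⟨⟨y, hy⟩, hwy, rfl⟩
    · rintro ⟨⟨y, hy⟩, hwy, rfl⟩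
      exact ⟨hy, hwy⟩
  rw [h2]
  exact Set.ncard_image_le (Set.toFinite _)

theorem HasBiclique.mono {V : Type} {G : SimpleGraph V} {s t s' t' : ℕ} (hs : s' ≤ s)
    (ht : t' ≤ t) (h : HasBiclique G s t) : HasBiclique G s' t' := by
  obtain ⟨f, g, hf, hg, hfg⟩ := h
  exact ⟨fun i => f (Fin.castLE hs i), fun i => g (Fin.castLE ht i),
    fun i j hij => Fin.castLE_injective _ (hf hij), fun i j hij => Fin.castLE_injective _ (hg hij),
    fun i j => hfg _ _⟩

/-- classes closed under taking subgraphs (and isomorphism). -/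
def Monotone (C : FG → Prop) : Prop :=
  ∀ G H : FG, C G → (∃ f : H.V → G.V, Function.Injective f ∧
    ∀ a b, H.G.Adj a b → G.G.Adj (f a) (f b)) → C H

/-- linear expansion of sparse classes of bounded reduced bandwidth. -/
theorem linear_expansion (C : FG → Prop) {s t k : ℕ}
    (hst : ∀ G, C G → ¬ HasBiclique G.G s t) (hk : ∀ G, C G → ReducedBandwidthLE G k) :
    ∃ c : ℕ, ∀ G, C G → ∀ (r : ℕ) (H : FG), IsShallowMinor r H G →
      (H.G.edgeSet.ncard : ℝ) ≤ c * (r + 1) * (Nat.card H.V : ℝ) := by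
  obtain ⟨m, hm⟩ : ∃ m, m = s + t + 2 := ⟨_, rfl⟩
  refine ⟨(8 * k + 2 * k + 3) * (m - 1), ?_⟩
  intro G hG r H hH
  have h1 := shallow_bound (hk G hG) (t := m) (by omega)
    (fun h => hst G hG (h.mono (by omega) (by omega))) hH
  have h2 : ((8 * (k * r) + 2 * k + 3) * (m - 1)) * Nat.card H.V ≤
      ((8 * k + 2 * k + 3) * (m - 1)) * (r + 1) * Nat.card H.V := by
    apply Nat.mul_le_mul_right
    have h3 : 8 * (k * r) + 2 * k + 3 ≤ (8 * k + 2 * k + 3) * (r + 1) := by nlinarith
    calc (8 * (k * r) + 2 * k + 3) * (m - 1) ≤ ((8 * k + 2 * k + 3) * (r + 1)) * (m - 1) :=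
          Nat.mul_le_mul_right _ h3
      _ = _ := by ring
  exact_mod_cast h1.trans h2

end Pool.Agent.V11121.RBW
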